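import Pool.Agent.Lib.MP_f017c9_lc_BT.Bas

/-!
# Random k-SAT: backtracking search, wide lines of a derivation
-/

namespace Pool.Agent.KS

open Finset

variable {n : ℕ}

/-- the clauses in `L` which are not satisfied by `ρ` and have at least `w` free literals -/
def alive (L : Finset (Finset (Lit n))) (w : ℕ) (ρ : PA n) : Finset (Finset (Lit n)) :=
  L.filter fun E => (∀ l ∈ E, ρ l.1 ≠ some l.2) ∧ w ≤ #{l ∈ E | ρ l.1 = none}

theorem alive_anti (L : Finset (Finset (Lit n))) (w : ℕ) {ρ ρ' : PA n} (h : PExt ρ ρ') :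
    alive L w ρ' ⊆ alive L w ρ := by
  intro E hE
  simp only [alive, mem_filter] at hE ⊢
  obtain ⟨hL, hu, hw⟩ := hE
  refine ⟨hL, fun l hl hs => hu l hl (h _ _ hs), hw.trans (card_le_card ?_)⟩
  intro l hl
  simp only [mem_filter] at hl ⊢
  refine ⟨hl.1, ?_⟩
  cases hρ : ρ l.1 with
  | none => rfl
  | some b =>
    have := h _ _ hρ
    rw [hl.2] at this
    exact absurd this (by simp)

/-- some free literal occurs in at least the proportion `w / (2 n)` of the wide clauses -/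
theorem alive_step (L : Finset (Finset (Lit n))) (w : ℕ) (hw : 1 ≤ w) (ρ : PA n)
    (h : (alive L w ρ).Nonempty) :
    ∃ x b, ρ x = none ∧
      ((alive L w (upd ρ x b)).card : ℝ) ≤ (alive L w ρ).card * (1 - w / (2 * n)) := by
  classical
  set A := alive L w ρ with hA
  set Fr : Finset (Lit n) := univ.filter fun l => ρ l.1 = none with hFr
  -- the width of a clause in `A`
  have hwid : ∀ E ∈ A, w ≤ #{l ∈ Fr | l ∈ E} := by
    intro E hE
    simp only [hA, alive, mem_filter] at hE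
    refine hE.2.2.trans (card_le_card ?_)
    intro l hl
    simp only [hFr, mem_filter, mem_univ, true_and] at hl ⊢
    exact ⟨hl.2, hl.1⟩
  obtain ⟨E₀, hE₀⟩ := h
  have hFrne : Fr.Nonempty := by
    have h1 := hwid E₀ hE₀
    have h2 : 0 < #{l ∈ Fr | l ∈ E₀} := by omega
    obtain ⟨l, hl⟩ := card_pos.1 h2
    exact ⟨l, (mem_filter.1 hl).1⟩
  have hFrcard : (Fr.card : ℝ) ≤ 2 * n := by
    have h1 : Fr.card ≤ Fintype.card (Lit n) := card_le_univ _
    have h2 : Fintype.card (Lit n) = n * 2 := by simp [Lit]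
    rw [h2] at h1
    have h3 : (Fr.card : ℝ) ≤ ((n * 2 : ℕ) : ℝ) := by exact_mod_cast h1
    push_cast at h3
    linarith
  have hFrpos : (0 : ℝ) < Fr.card := by exact_mod_cast card_pos.2 hFrne
  have hn : (0 : ℝ) < 2 * n := lt_of_lt_of_le hFrpos hFrcard
  -- double counting
  have hdc : (A.card : ℝ) * w ≤ ∑ l ∈ Fr, (#{E ∈ A | l ∈ E} : ℝ) := by
    have h1 : ∑ l ∈ Fr, #{E ∈ A | l ∈ E} = ∑ E ∈ A, #{l ∈ Fr | l ∈ E} := by
      simp only [card_filter]
      rw [sum_comm]
    have h2 : A.card * w ≤ ∑ E ∈ A, #{l ∈ Fr | l ∈ E} := by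
      rw [← smul_eq_mul]
      exact card_nsmul_le_sum _ _ _ hwid
    rw [← h1] at h2
    exact_mod_cast h2
  have hex : ∃ l ∈ Fr, (A.card : ℝ) * w / (2 * n) ≤ (#{E ∈ A | l ∈ E} : ℝ) := by
    by_contra hcon
    push Not at hcon
    have h1 : ∑ l ∈ Fr, (#{E ∈ A | l ∈ E} : ℝ) < ∑ _l ∈ Fr, (A.card : ℝ) * w / (2 * n) :=
      sum_lt_sum_of_nonempty hFrne hcon
    rw [sum_const, nsmul_eq_mul] at h1
    have h2 : (Fr.card : ℝ) * ((A.card : ℝ) * w / (2 * n)) ≤ (A.card : ℝ) * w := by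
      rw [mul_div_assoc', div_le_iff₀ hn, mul_comm]
      exact mul_le_mul_of_nonneg_left hFrcard (by positivity)
    linarith
  obtain ⟨⟨x, b⟩, hl, hlc⟩ := hex
  have hx : ρ x = none := by simpa [hFr] using hl
  refine ⟨x, b, hx, ?_⟩
  have hsub : alive L w (upd ρ x b) ⊆ A \ {E ∈ A | (x, b) ∈ E} := by
    intro E hE
    rw [mem_sdiff]
    have hpe : PExt ρ (upd ρ x b) := by
      intro y c hy
      have hne : y ≠ x := by
        rintro rfl
        rw [hx] at hy
        exact absurd hy (by simp)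
      simp [upd, Function.update_of_ne hne, hy]
    refine ⟨alive_anti L w hpe hE, ?_⟩
    intro hE2
    have hmem : (x, b) ∈ E := (mem_filter.1 hE2).2
    simp only [alive, mem_filter] at hE
    exact hE.2.1 (x, b) hmem (by simp [upd])
  have hc : (alive L w (upd ρ x b)).card + #{E ∈ A | (x, b) ∈ E} ≤ A.card := by
    have h1 := card_le_card hsub
    have h2 := card_sdiff_add_card_eq_card (filter_subset (fun E => (x, b) ∈ E) A)
    omega
  have hc' : ((alive L w (upd ρ x b)).card : ℝ) + (#{E ∈ A | (x, b) ∈ E} : ℝ) ≤ A.card := by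
    exact_mod_cast hc
  have he : (A.card : ℝ) * (1 - w / (2 * n)) = A.card - (A.card : ℝ) * w / (2 * n) := by ring
  rw [he]
  linarith

end Pool.Agent.KS
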