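import Pool.Agent.Lib.MP_f017c9_lc_BT.Core

/-!
# Random k-SAT: backtracking search, basic facts on cores
-/

namespace Pool.Agent.KS

open Finset

variable {n k M : ℕ} {F : Formula n k M} {ρ ρ' ρ'' : PA n} {σ : Asg n} {x : Fin n} {r : ℕ}
  {C C' : Finset (Fin M)}

theorem pext_refl (ρ : PA n) : PExt ρ ρ := by
  exact fun _ _ h => h

theorem pext_trans (h : PExt ρ ρ') (h' : PExt ρ' ρ'') : PExt ρ ρ'' := by
  exact fun x b hb => h' x b (h x b hb)

theorem ext_of_pext (h : PExt ρ ρ') (hσ : Ext ρ' σ) : Ext ρ σ := by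
  exact fun x b hb => hσ x b (h x b hb)

theorem upd_same (ρ : PA n) (x : Fin n) (b : Bool) : upd ρ x b x = some b := by
  exact Function.update_self x (some b) ρ

theorem upd_ne (ρ : PA n) {x y : Fin n} (b : Bool) (h : y ≠ x) : upd ρ x b y = ρ y := by
  exact Function.update_of_ne h (some b) ρ

theorem pext_upd (h : ρ x = none) (b : Bool) : PExt ρ (upd ρ x b) := by
  intro y c hy
  have hne : y ≠ x := by
    rintro rfl
    rw [h] at hy
    exact absurd hy (by simp)
  rw [upd_ne ρ b hne]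
  exact hy

/-- an assignment extends `upd ρ x b` iff it extends `ρ` and has the value `b` at `x` -/
theorem ext_upd (h : ρ x = none) (b : Bool) : Ext (upd ρ x b) σ ↔ Ext ρ σ ∧ σ x = b := by
  constructor
  · intro hσ
    exact ⟨ext_of_pext (pext_upd h b) hσ, hσ x b (upd_same ρ x b)⟩
  · rintro ⟨hσ, hx⟩ y c hy
    by_cases hne : y = x
    · subst hne
      rw [upd_same] at hy
      rw [hx]
      exact Option.some.inj hy
    · rw [upd_ne ρ b hne] at hy
      exact hσ y c hy

theorem nf_upd (h : ρ x = none) (b : Bool) : nf (upd ρ x b) + 1 = nf ρ := by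
  unfold nf
  have e : (univ.filter fun y => upd ρ x b y = none) = (univ.filter fun y => ρ y = none).erase x := by
    ext y
    simp only [mem_filter, mem_univ, true_and, mem_erase]
    constructor
    · intro hy
      have hne : y ≠ x := by
        rintro rfl
        rw [upd_same] at hy
        exact absurd hy (by simp)
      rw [upd_ne ρ b hne] at hy
      exact ⟨hne, hy⟩
    · rintro ⟨hne, hy⟩
      rw [upd_ne ρ b hne]
      exact hy
  rw [e]
  exact card_erase_add_one (by simp [h])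

theorem nf_le_of_pext (h : PExt ρ ρ') : nf ρ' ≤ nf ρ := by
  unfold nf
  refine card_le_card fun y hy => ?_
  simp only [mem_filter, mem_univ, true_and] at hy ⊢
  cases hc : ρ y with
  | none => rfl
  | some c =>
    rw [h y c hc] at hy
    exact absurd hy (by simp)

theorem nf_none (n : ℕ) : nf (fun _ => none : PA n) = n := by
  unfold nf
  simp

theorem nf_total (σ : Asg n) : nf (fun x => some (σ x)) = 0 := by
  unfold nf
  simp

theorem nf_le (ρ : PA n) : nf ρ ≤ n := by
  unfold nf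
  exact (card_le_univ _).trans (by simp)

theorem unsat_of_pext (h : PExt ρ ρ') {c : Clause n k} (hu : Unsat ρ' c) : Unsat ρ c := by
  exact fun i hi => hu i (h _ _ hi)

theorem core_pext (h : PExt ρ ρ') (hc : Core F ρ C) : Core F ρ' C := by
  exact fun σ hσ => hc σ (ext_of_pext h hσ)

theorem core_mono (h : C ⊆ C') (hc : Core F ρ C) : Core F ρ C' := by
  intro σ hσ
  obtain ⟨j, hj, hv⟩ := hc σ hσ
  exact ⟨j, h hj, hv⟩

theorem exists_minCore (hc : Core F ρ C) : ∃ C', C' ⊆ C ∧ MinCore F ρ C' := by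
  induction C using Finset.strongInduction with
  | H C ih =>
    by_cases hm : ∀ C', C' ⊂ C → ¬ Core F ρ C'
    · exact ⟨C, Subset.refl C, hc, hm⟩
    · push Not at hm
      obtain ⟨C', hC', hc'⟩ := hm
      obtain ⟨C'', h1, h2⟩ := ih C' hC' hc'
      exact ⟨C'', h1.trans hC'.subset, h2⟩

theorem minCore_unsat (h : MinCore F ρ C) {j : Fin M} (hj : j ∈ C) : Unsat ρ (F j) := by
  intro i hi
  refine h.2 (C.erase j) (erase_ssubset hj) fun σ hσ => ?_
  obtain ⟨j', hj', hv⟩ := h.1 σ hσ
  refine ⟨j', mem_erase.2 ⟨?_, hj'⟩, hv⟩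
  rintro rfl
  exact hv i (hσ _ _ hi)

theorem core_union (hx : ρ x = none) (b : Bool) (h1 : Core F (upd ρ x b) C)
    (h2 : Core F (upd ρ x (!b)) C') : Core F ρ (C ∪ C') := by
  intro σ hσ
  by_cases hb : σ x = b
  · obtain ⟨j, hj, hv⟩ := h1 σ ((ext_upd hx b).2 ⟨hσ, hb⟩)
    exact ⟨j, mem_union_left _ hj, hv⟩
  · have hb' : σ x = !b := by
      cases h : σ x <;> cases b <;> simp_all
    obtain ⟨j, hj, hv⟩ := h2 σ ((ext_upd hx (!b)).2 ⟨hσ, hb'⟩)
    exact ⟨j, mem_union_right _ hj, hv⟩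

theorem minCore_lit (hs : Safe F r ρ) (hx : ρ x = none) (b : Bool)
    (hC : MinCore F (upd ρ x b) C) (hr : C.card ≤ r) :
    ∃ j ∈ C, ∃ i, (F j).1 i = x ∧ (F j).2 i = !b := by
  by_contra hcon
  push Not at hcon
  have h1 : ∃ σ, Ext ρ σ ∧ ∀ j ∈ C, ¬ Violated σ (F j) := by
    have h2 := hs C hr
    unfold Core at h2
    push Not at h2
    exact h2
  obtain ⟨σ, hσ, hv⟩ := h1
  have hσ' : Ext (upd ρ x b) (Function.update σ x b) := by
    refine (ext_upd hx b).2 ⟨fun y c hy => ?_, Function.update_self x b σ⟩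
    have hne : y ≠ x := by
      rintro rfl
      rw [hx] at hy
      exact absurd hy (by simp)
    rw [Function.update_of_ne hne]
    exact hσ y c hy
  obtain ⟨j, hj, hvj⟩ := hC.1 _ hσ'
  refine hv j hj fun i => ?_
  by_cases hi : (F j).1 i = x
  · have h3 := hvj i
    rw [hi, Function.update_self] at h3
    have h4 := hcon j hj i hi
    exfalso
    cases hb : b <;> cases hs : (F j).2 i <;> simp_all
  · have h3 := hvj i
    rwa [Function.update_of_ne hi] at h3

theorem safe_of_sat (hσ : Ext ρ σ) (hsat : ∀ j, ¬ Violated σ (F j)) (r : ℕ) : Safe F r ρ := by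
  intro C _ hc
  obtain ⟨j, _, hj⟩ := hc σ hσ
  exact hsat j hj

end Pool.Agent.KS
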