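import Pool.Agent.Lib.MP_f017c9_lc_BT.Dfc

/-!
# Random k-SAT: backtracking search, safe nodes
-/

namespace Pool.Agent.KS

open Finset

variable {n k M : ℕ} {F : Formula n k M} {ρ : PA n} {x : Fin n} {r U : ℕ} {C : Finset (Fin M)}

/-- a minimal core has at most `r` or more than `2 r` clauses -/
theorem minCore_gap (hm : Med F U r) (hU : U ≤ nf ρ) (hC : MinCore F ρ C) (h2 : C.card ≤ 2 * r) :
    C.card ≤ r := by
  by_contra h
  rw [not_le] at h
  have h1 := hm ρ hU C h h2 fun j hj => minCore_unsat hC hj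
  have h3 := card_fv_le hC
  omega

theorem no_core_med (hm : Med F U r) (hs : Safe F r ρ) (hU : U ≤ nf ρ) (hC : C.card ≤ 2 * r) :
    ¬ Core F ρ C := by
  intro hc
  obtain ⟨C', hsub, hmin⟩ := exists_minCore hc
  have h1 := Finset.card_le_card hsub
  exact hs C' (minCore_gap hm hU hmin (h1.trans hC)) hmin.1

/-- one of the two extensions of a safe node is safe -/
theorem safe_or (hm : Med F U r) (hs : Safe F r ρ) (hU : U ≤ nf ρ) (hx : ρ x = none) (b : Bool) :
    Safe F r (upd ρ x b) ∨ Safe F r (upd ρ x (!b)) := by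
  by_contra h
  rw [not_or] at h
  obtain ⟨h1, h2⟩ := h
  simp only [Safe, not_forall, not_not] at h1 h2
  obtain ⟨C1, hc1, hC1⟩ := h1
  obtain ⟨C2, hc2, hC2⟩ := h2
  have h3 : (C1 ∪ C2).card ≤ 2 * r := (Finset.card_union_le _ _).trans (by omega)
  exact no_core_med hm hs hU h3 (core_union hx b hC1 hC2)

end Pool.Agent.KS
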