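import Pool.Agent.Lib.MP_f017c9_lc_BT.Core

/-!
# Random k-SAT: backtracking search, counting clauses and formulas
-/

namespace Pool.Agent.KS

open Finset

variable {n k M : ℕ}

/-- the number of the clauses with all literals in `A` -/
theorem card_lits_subset (A : Finset (Lit n)) :
    #{c : Clause n k | lits c ⊆ A} ≤ A.card ^ k := by
  classical
  have h1 : (Fintype.piFinset fun _ : Fin k => A).card = A.card ^ k := by
    rw [Fintype.card_piFinset, Finset.prod_const, Finset.card_univ, Fintype.card_fin]
  rw [← h1]
  refine Finset.card_le_card_of_injOn (fun c i => (c.1 i, c.2 i)) ?_ ?_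
  · intro c hc
    have hc' : lits c ⊆ A := by simpa using hc
    have h2 : ∀ i, (c.1 i, c.2 i) ∈ A := fun i =>
      hc' (Finset.mem_image_of_mem _ (Finset.mem_univ i))
    simpa [Fintype.mem_piFinset] using h2
  · intro c _ c' _ h
    have h2 : ∀ i, (c.1 i, c.2 i) = (c'.1 i, c'.2 i) := fun i => congrFun h i
    refine Prod.ext ?_ ?_
    · ext i
      rw [(Prod.mk.inj (h2 i)).1]
    · funext i
      exact (Prod.mk.inj (h2 i)).2

theorem card_clause_ge (n k : ℕ) : (2 * (n - k)) ^ k ≤ Fintype.card (Clause n k) := by
  have h1 : Fintype.card (Clause n k) = n.descFactorial k * 2 ^ k := by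
    rw [Fintype.card_prod, Fintype.card_embedding_eq, Fintype.card_fin, Fintype.card_fin,
      Fintype.card_fun, Fintype.card_bool, Fintype.card_fin]
  have h2 := Nat.pow_sub_le_descFactorial n k
  have h3 : (n - k) ^ k ≤ (n + 1 - k) ^ k := Nat.pow_le_pow_left (by omega) k
  rw [h1, mul_pow, mul_comm]
  exact Nat.mul_le_mul_right _ (h3.trans h2)

/-- the number of the formulas with all clauses with index in `C` in a given class -/
theorem card_forall (P : Clause n k → Prop) [DecidablePred P] (C : Finset (Fin M)) :
    #{F : Formula n k M | ∀ j ∈ C, P (F j)} =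
      #{c : Clause n k | P c} ^ C.card * Fintype.card (Clause n k) ^ (M - C.card) := by
  classical
  have h1 : ({F : Formula n k M | ∀ j ∈ C, P (F j)} : Finset (Formula n k M)) =
      Fintype.piFinset fun j => if j ∈ C then ({c : Clause n k | P c} : Finset (Clause n k))
        else univ := by
    ext F
    rw [Finset.mem_filter, Fintype.mem_piFinset]
    constructor
    · rintro ⟨-, h⟩ j
      split_ifs with hj
      · exact Finset.mem_filter.2 ⟨Finset.mem_univ _, h j hj⟩
      · exact Finset.mem_univ _
    · intro h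
      refine ⟨Finset.mem_univ _, fun j hj => ?_⟩
      have h2 := h j
      rw [if_pos hj] at h2
      exact (Finset.mem_filter.1 h2).2
  rw [h1, Fintype.card_piFinset]
  have h2 : ∀ j : Fin M, (if j ∈ C then ({c : Clause n k | P c} : Finset (Clause n k))
        else univ).card = if j ∈ C then #{c : Clause n k | P c} else
          Fintype.card (Clause n k) := by
    intro j
    split_ifs
    · rfl
    · exact Finset.card_univ
  simp only [h2]
  rw [Finset.prod_ite, Finset.prod_const, Finset.prod_const]
  have h3 : (Finset.univ.filter fun j => j ∈ C) = C := by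
    ext j
    simp
  have h4 : (Finset.univ.filter fun j => j ∉ C).card = M - C.card := by
    have h5 : (Finset.univ.filter fun j => j ∉ C) = Cᶜ := by
      ext j
      simp
    rw [h5, Finset.card_compl, Fintype.card_fin]
  rw [h3, h4]

theorem sum_pow_card (M r : ℕ) (p z : ℝ) (hp : 0 ≤ p) (hz : 1 ≤ z) :
    ∑ C : Finset (Fin M) with r < C.card, p ^ C.card ≤ (1 + p * z) ^ M / z ^ r := by
  have hz0 : 0 < z := by linarith
  rw [le_div_iff₀ (by positivity), Finset.sum_mul]
  have h1 := Fintype.sum_pow_mul_eq_add_pow (Fin M) (p * z) 1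
  rw [Fintype.card_fin] at h1
  rw [add_comm 1 (p * z), ← h1]
  refine (Finset.sum_le_sum (fun C hC => ?_)).trans (Finset.sum_le_sum_of_subset_of_nonneg
    (Finset.filter_subset _ _) (fun C _ _ => by positivity))
  have hr : r < C.card := (Finset.mem_filter.1 hC).2
  rw [one_pow, mul_one, mul_pow]
  exact mul_le_mul_of_nonneg_left (pow_le_pow_right₀ hz hr.le) (by positivity)

/-- first moment -/
theorem sat_count (σ : Asg n) :
    (#{F : Formula n k M | ∀ j, ¬ Violated σ (F j)} : ℝ) ≤
      Real.exp (-(M / 2 ^ k)) * Fintype.card (Formula n k M) := by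
  classical
  have h1 := card_forall (M := M) (fun c : Clause n k => ¬ Violated σ c) Finset.univ
  have h2 : (#{F : Formula n k M | ∀ j, ¬ Violated σ (F j)} : ℕ) =
      #{c : Clause n k | ¬ Violated σ c} ^ M := by
    rw [Finset.card_univ, Fintype.card_fin, Nat.sub_self, pow_zero, mul_one] at h1
    rw [← h1]
    congr 1
    ext F
    simp
  have h3 : (#{c : Clause n k | Violated σ c} : ℕ) = Fintype.card (Fin k ↪ Fin n) := by
    have h4 : ({c : Clause n k | Violated σ c} : Finset (Clause n k)) =
        Finset.univ.image (fun e : Fin k ↪ Fin n => (e, fun i => !σ (e i))) := by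
      ext c
      rw [Finset.mem_filter, Finset.mem_image]
      constructor
      · rintro ⟨-, h⟩
        refine ⟨c.1, Finset.mem_univ _, ?_⟩
        refine Prod.ext rfl ?_
        funext i
        have h5 := h i
        change (!σ (c.1 i)) = c.2 i
        cases hs : σ (c.1 i) <;> cases hc : c.2 i <;> simp_all
      · rintro ⟨e, -, rfl⟩
        refine ⟨Finset.mem_univ _, fun i => ?_⟩
        change σ (e i) ≠ !σ (e i)
        cases σ (e i) <;> simp
    rw [h4, Finset.card_image_of_injective, Finset.card_univ]
    intro e e' h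
    exact (Prod.mk.inj h).1
  have h5 : #{c : Clause n k | Violated σ c} + #{c : Clause n k | ¬ Violated σ c} =
      Fintype.card (Clause n k) := by
    rw [Finset.card_filter_add_card_filter_not, Finset.card_univ]
  have h6 : Fintype.card (Clause n k) = Fintype.card (Fin k ↪ Fin n) * 2 ^ k := by
    rw [Fintype.card_prod, Fintype.card_fun, Fintype.card_bool, Fintype.card_fin]
  have h7 : (#{c : Clause n k | ¬ Violated σ c} : ℝ) =
      (1 - 1 / 2 ^ k) * Fintype.card (Clause n k) := by
    have h8 : ((#{c : Clause n k | Violated σ c} : ℕ) : ℝ) +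
        ((#{c : Clause n k | ¬ Violated σ c} : ℕ) : ℝ) = Fintype.card (Clause n k) := by
      exact_mod_cast h5
    rw [h3] at h8
    have h9 : (Fintype.card (Clause n k) : ℝ) = Fintype.card (Fin k ↪ Fin n) * 2 ^ k := by
      rw [h6]
      push_cast
      rfl
    have h10 : (1 / 2 ^ k : ℝ) * Fintype.card (Clause n k) = Fintype.card (Fin k ↪ Fin n) := by
      rw [h9]
      field_simp
    rw [sub_mul, one_mul, h10]
    linarith
  have h11 : (Fintype.card (Formula n k M) : ℝ) = (Fintype.card (Clause n k) : ℝ) ^ M := by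
    rw [Fintype.card_fun, Fintype.card_fin]
    push_cast
    rfl
  have h12 : (0 : ℝ) ≤ 1 - 1 / 2 ^ k := by
    have h13 : (1 : ℝ) / 2 ^ k ≤ 1 := by
      rw [div_le_one (by positivity)]
      exact one_le_pow₀ (by norm_num)
    linarith
  have h14 : (1 - 1 / 2 ^ k : ℝ) ^ M ≤ Real.exp (-(M / 2 ^ k)) := by
    have h15 : (1 - 1 / 2 ^ k : ℝ) ≤ Real.exp (-(1 / 2 ^ k)) := by
      have := Real.add_one_le_exp (-(1 / 2 ^ k : ℝ))
      linarith
    refine (pow_le_pow_left₀ h12 h15 M).trans (le_of_eq ?_)
    rw [← Real.exp_nat_mul]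
    congr 1
    ring
  rw [h2]
  push_cast
  rw [h7, h11, mul_pow]
  exact mul_le_mul_of_nonneg_right h14 (by positivity)

end Pool.Agent.KS
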