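import Pool.Agent.Lib.MP_f017c9_lc_BT.Coi
import Pool.Agent.Lib.MP_f017c9_lc_BT.Cnt

/-!
# Random k-SAT: backtracking search with random first values, the branching variable may depend on
# the history of the search
-/

namespace Pool.Agent.KS

open Finset

variable {n k M : ℕ}

/-- `sel c ρ` (`c`: one coin for every node) does not depend on the coin at the node `ρ` and on the
coins at the nodes below `ρ` (the extensions of `ρ`). -/
def Causal (sel : (PA n → Bool) → PA n → Fin n) : Prop :=
  ∀ (ρ : PA n) (c c' : PA n → Bool), (∀ ρ' : PA n, (∃ x, ρ x ≠ none ∧ ρ' x ≠ ρ x) → c ρ' = c' ρ') →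
    sel c ρ = sel c' ρ

/-- an update at an assigned variable does not change the number of free variables -/
private theorem Cau_nf_upd {ρ : PA n} {x : Fin n} (hx : ρ x ≠ none) (b : Bool) :
    nf (upd ρ x b) = nf ρ := by
  unfold nf
  congr 1
  refine filter_congr fun y _ => ?_
  unfold upd
  by_cases h : y = x
  · rw [h, Function.update_self]
    exact ⟨fun h1 => by simp at h1, fun h1 => absurd h1 hx⟩
  · rw [Function.update_of_ne h]

/-- the nodes on the path extend each other -/
private theorem Cau_ext {sel : PA n → Fin n} {σ : Asg n} {t : ℕ}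
    (h : ∀ s ≤ t, s + nf (node sel σ s) = n) : ∀ j s, s + j = t → ∀ x,
      node sel σ s x ≠ none → node sel σ t x = node sel σ s x := by
  intro j
  induction j with
  | zero =>
    intro s hs x _
    rw [← hs, add_zero]
  | succ j ih =>
    intro s hs x hx
    have h1 := h s (by omega)
    have h2 := h (s + 1) (by omega)
    have h3 : node sel σ s (sel (node sel σ s)) = none := by
      by_contra h4
      have h5 := Cau_nf_upd h4 (σ (sel (node sel σ s)))
      change s + 1 + nf (upd (node sel σ s) (sel (node sel σ s)) (σ (sel (node sel σ s)))) = n at h2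
      omega
    have h6 : node sel σ (s + 1) x = node sel σ s x := by
      change upd (node sel σ s) (sel (node sel σ s)) (σ (sel (node sel σ s))) x = _
      unfold upd
      rw [Function.update_of_ne]
      rintro rfl
      exact hx h3
    have h7 := ih (s + 1) (by omega) x (by rw [h6]; exact hx)
    rw [h7, h6]

/-- the coin at a node is flipped -/
private def Cau_flip (c : PA n → Bool) (ρ : PA n) : PA n → Bool := Function.update c ρ (!c ρ)

private theorem Cau_flip_flip (c : PA n → Bool) (ρ : PA n) : Cau_flip (Cau_flip c ρ) ρ = c := by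
  unfold Cau_flip
  rw [Function.update_self, Function.update_idem, Bool.not_not, Function.update_eq_self]

private theorem Cau_inv {sel : (PA n → Bool) → PA n → Fin n} (hsel : Causal sel) {σ : Asg n}
    {t : ℕ} {c : PA n → Bool} (h : ∀ s ≤ t, s + nf (node (sel c) σ s) = n) :
    ∀ s ≤ t, node (sel (Cau_flip c (node (sel c) σ t))) σ s = node (sel c) σ s ∧
      sel (Cau_flip c (node (sel c) σ t)) (node (sel c) σ s) = sel c (node (sel c) σ s) := by
  have key : ∀ s ≤ t, sel (Cau_flip c (node (sel c) σ t)) (node (sel c) σ s) =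
      sel c (node (sel c) σ s) := by
    intro s hs
    refine hsel _ _ _ fun ρ' hρ' => ?_
    obtain ⟨x, hx1, hx2⟩ := hρ'
    unfold Cau_flip
    rw [Function.update_of_ne]
    rintro rfl
    exact hx2 (Cau_ext h (t - s) s (by omega) x hx1)
  intro s
  induction s with
  | zero => exact fun hs => ⟨rfl, key 0 hs⟩
  | succ s ih =>
    intro hs
    obtain ⟨h1, h2⟩ := ih (by omega)
    refine ⟨?_, key _ hs⟩
    change upd (node (sel (Cau_flip c (node (sel c) σ t))) σ s) _ _ = upd (node (sel c) σ s) _ _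
    rw [h1, h2]

open Classical in
/-- the coins with a given pattern of disagreements on the first `t` nodes of the path -/
private noncomputable def Cau_A (sel : (PA n → Bool) → PA n → Fin n) (σ : Asg n) (d : ℕ → Bool)
    (t : ℕ) : Finset (PA n → Bool) :=
  univ.filter fun c => ∀ s < t, s + nf (node (sel c) σ s) = n ∧
    decide (c (node (sel c) σ s) ≠ σ (sel c (node (sel c) σ s))) = d s

private theorem Cau_step {sel : (PA n → Bool) → PA n → Fin n} (hsel : Causal sel) (σ : Asg n)
    (d : ℕ → Bool) (t : ℕ) : 2 * (Cau_A sel σ d (t + 1)).card ≤ (Cau_A sel σ d t).card := by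
  classical
  have hsub : Cau_A sel σ d (t + 1) ⊆ Cau_A sel σ d t := by
    intro c hc
    unfold Cau_A at hc ⊢
    rw [mem_filter_univ] at hc ⊢
    exact fun s hs => hc s (by omega)
  -- the flip maps into the complement
  have hmap : ∀ c ∈ Cau_A sel σ d (t + 1), (∀ s ≤ t, s + nf (node (sel c) σ s) = n) ∧
      Cau_flip c (node (sel c) σ t) ∈ Cau_A sel σ d t \ Cau_A sel σ d (t + 1) := by
    intro c hc
    unfold Cau_A at hc
    rw [mem_filter_univ] at hc
    have h1 : ∀ s ≤ t, s + nf (node (sel c) σ s) = n := fun s hs => (hc s (by omega)).1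
    have h2 := Cau_inv hsel h1
    refine ⟨h1, ?_⟩
    rw [mem_sdiff]
    constructor
    · unfold Cau_A
      rw [mem_filter_univ]
      intro s hs
      obtain ⟨e1, e2⟩ := h2 s hs.le
      rw [e1, e2]
      refine ⟨h1 s hs.le, ?_⟩
      have h3 : Cau_flip c (node (sel c) σ t) (node (sel c) σ s) = c (node (sel c) σ s) := by
        unfold Cau_flip
        rw [Function.update_of_ne]
        intro h4
        have h5 := h1 s hs.le
        have h6 := h1 t le_rfl
        rw [h4] at h5
        omega
      rw [h3]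
      exact (hc s (by omega)).2
    · unfold Cau_A
      rw [mem_filter_univ]
      intro h3
      have h4 := (h3 t (by omega)).2
      obtain ⟨e1, e2⟩ := h2 t le_rfl
      rw [e1, e2] at h4
      have h5 := (hc t (by omega)).2
      rw [← h5] at h4
      have h6 : Cau_flip c (node (sel c) σ t) (node (sel c) σ t) = !c (node (sel c) σ t) := by
        unfold Cau_flip
        rw [Function.update_self]
      rw [h6] at h4
      revert h4
      cases c (node (sel c) σ t) <;> cases σ (sel c (node (sel c) σ t)) <;> simp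
  have hinj : Set.InjOn (fun c => Cau_flip c (node (sel c) σ t)) (Cau_A sel σ d (t + 1)) := by
    intro c hc c' hc' hcc
    have h1 := (hmap c hc).1
    have h2 := (hmap c' hc').1
    have h3 := (Cau_inv hsel h1 t le_rfl).1
    have h4 := (Cau_inv hsel h2 t le_rfl).1
    have h5 : Cau_flip c (node (sel c) σ t) = Cau_flip c' (node (sel c') σ t) := hcc
    rw [h5, h4] at h3
    rw [← Cau_flip_flip c (node (sel c) σ t), h5, ← h3, Cau_flip_flip]
  have h1 : (Cau_A sel σ d (t + 1)).card ≤ (Cau_A sel σ d t \ Cau_A sel σ d (t + 1)).card :=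
    Finset.card_le_card_of_injOn _ (fun c hc => (hmap c hc).2) hinj
  have h2 := Finset.card_sdiff_add_card_eq_card hsub
  omega

private theorem Cau_card {sel : (PA n → Bool) → PA n → Fin n} (hsel : Causal sel) (σ : Asg n)
    (d : ℕ → Bool) (t : ℕ) :
    (Cau_A sel σ d t).card * 2 ^ t ≤ Fintype.card (PA n → Bool) := by
  induction t with
  | zero =>
    rw [pow_zero, mul_one]
    exact Finset.card_le_univ _
  | succ t ih =>
    refine le_trans ?_ ih
    rw [pow_succ]
    have := Nat.mul_le_mul_right (2 ^ t) (Cau_step hsel σ d t)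
    calc (Cau_A sel σ d (t + 1)).card * (2 ^ t * 2) = 2 * (Cau_A sel σ d (t + 1)).card * 2 ^ t := by
          ring
      _ ≤ _ := this

theorem causal_count (sel : (PA n → Bool) → PA n → Fin n) (hsel : Causal sel) (σ : Asg n)
    (r B : ℝ) (hB : ∀ τ : Asg n, (#{τ' : Asg n | (hammingDist τ τ' : ℝ) ≤ r} : ℝ) ≤ B) :
    (#{c : PA n → Bool | (∀ s < n, s + nf (node (sel c) σ s) = n) ∧
      ((#{s ∈ range n | c (node (sel c) σ s) ≠ σ (sel c (node (sel c) σ s))} : ℕ) : ℝ) ≤ r} : ℝ) *
        2 ^ n ≤ B * Fintype.card (PA n → Bool) := by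
  classical
  set Ds : Finset (Asg n) := {τ' : Asg n | (hammingDist (fun _ => false) τ' : ℝ) ≤ r} with hDs
  have hsub : (univ.filter fun c : PA n → Bool => (∀ s < n, s + nf (node (sel c) σ s) = n) ∧
      ((#{s ∈ range n | c (node (sel c) σ s) ≠ σ (sel c (node (sel c) σ s))} : ℕ) : ℝ) ≤ r) ⊆
      Ds.biUnion fun τ => Cau_A sel σ (fun s => if h : s < n then τ ⟨s, h⟩ else false) n := by
    intro c hc
    rw [mem_filter_univ] at hc
    obtain ⟨hc1, hc2⟩ := hc
    rw [mem_biUnion]
    refine ⟨fun t : Fin n => decide (c (node (sel c) σ t) ≠ σ (sel c (node (sel c) σ t))), ?_, ?_⟩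
    · rw [hDs, mem_filter_univ]
      have h1 : hammingDist (fun _ => false) (fun t : Fin n =>
          decide (c (node (sel c) σ t) ≠ σ (sel c (node (sel c) σ t)))) =
          #{s ∈ range n | c (node (sel c) σ s) ≠ σ (sel c (node (sel c) σ s))} := by
        rw [hammingDist, Finset.card_filter, Finset.card_filter, Finset.sum_range]
        refine Finset.sum_congr rfl fun t _ => ?_
        by_cases h : c (node (sel c) σ t) = σ (sel c (node (sel c) σ t)) <;> simp [h]
      rw [h1]
      exact hc2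
    · unfold Cau_A
      rw [mem_filter_univ]
      intro s hs
      refine ⟨hc1 s hs, ?_⟩
      beta_reduce
      rw [dif_pos hs]
  have hle : (#{c : PA n → Bool | (∀ s < n, s + nf (node (sel c) σ s) = n) ∧
      ((#{s ∈ range n | c (node (sel c) σ s) ≠ σ (sel c (node (sel c) σ s))} : ℕ) : ℝ) ≤ r}) ≤
      ∑ τ ∈ Ds, (Cau_A sel σ (fun s => if h : s < n then τ ⟨s, h⟩ else false) n).card := by
    refine le_trans (Finset.card_le_card ?_) Finset.card_biUnion_le
    exact hsub
  have h1 : (#{c : PA n → Bool | (∀ s < n, s + nf (node (sel c) σ s) = n) ∧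
      ((#{s ∈ range n | c (node (sel c) σ s) ≠ σ (sel c (node (sel c) σ s))} : ℕ) : ℝ) ≤ r}) *
      2 ^ n ≤ Ds.card * Fintype.card (PA n → Bool) := by
    refine (Nat.mul_le_mul_right _ hle).trans ?_
    rw [Finset.sum_mul, ← smul_eq_mul, ← Finset.sum_const]
    exact Finset.sum_le_sum fun τ _ => Cau_card hsel σ _ n
  have h2 : ((#{c : PA n → Bool | (∀ s < n, s + nf (node (sel c) σ s) = n) ∧
      ((#{s ∈ range n | c (node (sel c) σ s) ≠ σ (sel c (node (sel c) σ s))} : ℕ) : ℝ) ≤ r} : ℕ)
        : ℝ) * 2 ^ n ≤ (Ds.card : ℝ) * Fintype.card (PA n → Bool) := by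
    exact_mod_cast h1
  refine h2.trans (mul_le_mul_of_nonneg_right ?_ (Nat.cast_nonneg _))
  have h3 := hB fun _ => false
  convert h3 using 2

private theorem Cau_prod {α β : Type*} [Fintype α] [Fintype β] (P : α → Prop)
    (Q : α → β → Prop) [DecidablePred P] [∀ a, DecidablePred (Q a)]
    [DecidablePred fun y : α × β => P y.1 ∧ Q y.1 y.2] :
    #{y : α × β | P y.1 ∧ Q y.1 y.2} = ∑ a with P a, #{b | Q a b} := by
  rw [Finset.card_filter, Fintype.sum_prod_type, Finset.sum_filter]
  refine Finset.sum_congr rfl fun a _ => ?_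
  by_cases h : P a
  · rw [if_pos h, Finset.card_filter]
    refine Finset.sum_congr rfl fun b _ => ?_
    simp [h]
  · rw [if_neg h]
    refine Finset.sum_eq_zero fun b _ => ?_
    rw [if_neg (fun h' => h h'.1)]

private theorem Cau_path (F : Formula n k M) (T : ℝ) (sel : PA n → Fin n) (coin : PA n → Bool)
    (σ : Asg n) (m : ℕ) (h : FindsAt F T (fun ρ => (sel ρ, coin ρ)) σ m) :
    (∀ s < n, s + nf (node sel σ s) = n) ∧
      #{s ∈ range n | coin (node sel σ s) ≠ σ (sel (node sel σ s))} = m := by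
  obtain ⟨t, h1, h2, h3, h4⟩ := reach_node (σ := σ) T sel coin h.1
    (fun x b hb => Option.some.inj hb)
  have h5 : nf (fun x => some (σ x)) = 0 := by simp [nf]
  have h6 : t = n := by omega
  rw [h6] at h3 h4
  exact ⟨h3, h4.symm⟩

open Classical in
theorem causal_few (T r B : ℝ) (sel : Formula n k M → (PA n → Bool) → PA n → Fin n)
    (hsel : ∀ F, Causal (sel F))
    (hB : ∀ σ : Asg n, (#{τ : Asg n | (hammingDist σ τ : ℝ) ≤ r} : ℝ) ≤ B) :
    (#{y : Formula n k M × (PA n → Bool) | ∃ σ m,
        FindsAt y.1 T (fun ρ => (sel y.1 y.2 ρ, y.2 ρ)) σ m ∧ (m : ℝ) ≤ r} : ℝ) ≤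
      B * Real.exp (-(M / 2 ^ k)) * Fintype.card (Formula n k M × (PA n → Bool)) := by
  have hB0 : 0 ≤ B := (Nat.cast_nonneg _).trans (hB fun _ => false)
  obtain ⟨Q, hQ⟩ : ∃ Q : Asg n → Formula n k M → (PA n → Bool) → Prop, ∀ σ F c, Q σ F c ↔
      (∀ s < n, s + nf (node (sel F c) σ s) = n) ∧
      ((#{s ∈ range n | c (node (sel F c) σ s) ≠ σ (sel F c (node (sel F c) σ s))} : ℕ) : ℝ) ≤ r :=
    ⟨_, fun _ _ _ => Iff.rfl⟩
  have hsub : (univ.filter fun y : Formula n k M × (PA n → Bool) => ∃ σ m,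
      FindsAt y.1 T (fun ρ => (sel y.1 y.2 ρ, y.2 ρ)) σ m ∧ (m : ℝ) ≤ r) ⊆
      univ.biUnion fun σ : Asg n => univ.filter fun y : Formula n k M × (PA n → Bool) =>
        (∀ j, ¬ Violated σ (y.1 j)) ∧ Q σ y.1 y.2 := by
    intro y hy
    rw [Finset.mem_filter] at hy
    obtain ⟨-, σ, m, hf, hm⟩ := hy
    rw [Finset.mem_biUnion]
    refine ⟨σ, Finset.mem_univ _, ?_⟩
    rw [Finset.mem_filter]
    obtain ⟨h1, h2⟩ := Cau_path y.1 T (sel y.1 y.2) y.2 σ m hf
    exact ⟨Finset.mem_univ _, hf.2, (hQ _ _ _).2 ⟨h1, by rw [h2]; exact hm⟩⟩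
  have hC : ∀ (σ : Asg n) (F : Formula n k M), ((#{c | Q σ F c} : ℕ) : ℝ) ≤
      B * Fintype.card (PA n → Bool) / 2 ^ n := by
    intro σ F
    rw [le_div_iff₀ (by positivity)]
    have h1 := causal_count (sel F) (hsel F) σ r B (fun τ => by
      have := hB τ
      convert this using 3)
    refine le_trans (mul_le_mul_of_nonneg_right ?_ (by positivity)) h1
    exact_mod_cast Finset.card_le_card fun c hc => by
      rw [Finset.mem_filter] at hc ⊢
      exact ⟨hc.1, (hQ _ _ _).1 hc.2⟩
  have hD : ∀ σ : Asg n, ((#{y : Formula n k M × (PA n → Bool) |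
      (∀ j, ¬ Violated σ (y.1 j)) ∧ Q σ y.1 y.2} : ℕ) : ℝ) ≤
      Real.exp (-(M / 2 ^ k)) * Fintype.card (Formula n k M) *
        (B * Fintype.card (PA n → Bool) / 2 ^ n) := by
    intro σ
    rw [Cau_prod (fun F : Formula n k M => ∀ j, ¬ Violated σ (F j)) (fun F c => Q σ F c)]
    push_cast
    refine (Finset.sum_le_sum fun F _ => hC σ F).trans ?_
    rw [Finset.sum_const, nsmul_eq_mul]
    refine mul_le_mul_of_nonneg_right ?_ (by positivity)
    have h1 := sat_count (k := k) (M := M) σ
    convert h1 using 3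
  have hE : ((#{y : Formula n k M × (PA n → Bool) | ∃ σ m,
      FindsAt y.1 T (fun ρ => (sel y.1 y.2 ρ, y.2 ρ)) σ m ∧ (m : ℝ) ≤ r} : ℕ) : ℝ) ≤
      ∑ σ : Asg n, ((#{y : Formula n k M × (PA n → Bool) |
        (∀ j, ¬ Violated σ (y.1 j)) ∧ Q σ y.1 y.2} : ℕ) : ℝ) := by
    exact_mod_cast (Finset.card_le_card hsub).trans Finset.card_biUnion_le
  refine hE.trans ((Finset.sum_le_sum fun σ _ => hD σ).trans (le_of_eq ?_))
  rw [Finset.sum_const, nsmul_eq_mul, Finset.card_univ, Fintype.card_prod]
  have h2 : Fintype.card (Asg n) = 2 ^ n := by simp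
  rw [h2]
  push_cast
  have h3 : (2 : ℝ) ^ n ≠ 0 := by positivity
  field_simp

end Pool.Agent.KS
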