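import Pool.Agent.Lib.MP_f017c9_lc_BT.Bas

/-!
# Random k-SAT: backtracking search, coins on a path and fixed phases
-/

namespace Pool.Agent.KS

open Finset

variable {n k M : ℕ} {F : Formula n k M} {ρ : PA n} {σ : Asg n} {m : ℕ}

/-- the nodes on the path which leads to the assignment `σ` -/
def node (sel : PA n → Fin n) (σ : Asg n) : ℕ → PA n
  | 0 => fun _ => none
  | t + 1 => upd (node sel σ t) (sel (node sel σ t)) (σ (sel (node sel σ t)))

theorem reach_node (T : ℝ) (sel : PA n → Fin n) (coin : PA n → Bool)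
    (h : Reach F T (fun ρ => (sel ρ, coin ρ)) ρ m) (hσ : Ext ρ σ) :
    ∃ t, ρ = node sel σ t ∧ t + nf ρ = n ∧ (∀ s < t, s + nf (node sel σ s) = n) ∧
      m = #{s ∈ range t | coin (node sel σ s) ≠ σ (sel (node sel σ s))} := by
  induction h with
  | root => exact ⟨0, rfl, by rw [nf_none, zero_add], by simp, by simp⟩
  | first ρ m h hx ih =>
    have hx' : ρ (sel ρ) = none := hx
    have hσ' : Ext (upd ρ (sel ρ) (coin ρ)) σ := hσ
    rw [ext_upd hx'] at hσ'
    obtain ⟨t, h1, h2, h3, h4⟩ := ih hσ'.1
    refine ⟨t + 1, ?_, ?_, ?_, ?_⟩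
    · change upd ρ (sel ρ) (coin ρ) = upd (node sel σ t) (sel (node sel σ t))
        (σ (sel (node sel σ t)))
      rw [← h1, hσ'.2]
    · have h5 := nf_upd hx' (coin ρ)
      change t + 1 + nf (upd ρ (sel ρ) (coin ρ)) = n
      omega
    · intro s hs
      rcases Nat.lt_succ_iff_lt_or_eq.mp hs with h6 | h6
      · exact h3 s h6
      · rw [h6, ← h1]
        exact h2
    · rw [range_add_one, filter_insert, if_neg, ← h4]
      rw [← h1, not_not]
      exact hσ'.2.symm
  | second ρ m h hx hr ih =>
    have hx' : ρ (sel ρ) = none := hx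
    have hσ' : Ext (upd ρ (sel ρ) (!coin ρ)) σ := hσ
    rw [ext_upd hx'] at hσ'
    obtain ⟨t, h1, h2, h3, h4⟩ := ih hσ'.1
    refine ⟨t + 1, ?_, ?_, ?_, ?_⟩
    · change upd ρ (sel ρ) (!coin ρ) = upd (node sel σ t) (sel (node sel σ t))
        (σ (sel (node sel σ t)))
      rw [← h1, hσ'.2]
    · have h5 := nf_upd hx' (!coin ρ)
      change t + 1 + nf (upd ρ (sel ρ) (!coin ρ)) = n
      omega
    · intro s hs
      rcases Nat.lt_succ_iff_lt_or_eq.mp hs with h6 | h6
      · exact h3 s h6
      · rw [h6, ← h1]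
        exact h2
    · rw [range_add_one, filter_insert, if_pos, card_insert_of_notMem, ← h4]
      · simp
      · rw [← h1, hσ'.2]
        cases coin ρ <;> simp

/-- the number of corrections when every variable has a fixed first value -/
theorem reach_fixed (T : ℝ) (sel : PA n → Fin n) (c : Asg n)
    (h : Reach F T (fun ρ => (sel ρ, c (sel ρ))) ρ m) : m = #{x | ρ x = some (!c x)} := by
  induction h with
  | root => simp
  | first ρ m h hx ih =>
    have hx' : ρ (sel ρ) = none := hx
    rw [ih]
    congr 1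
    refine filter_congr fun x _ => ?_
    change _ ↔ Function.update ρ (sel ρ) (some (c (sel ρ))) x = some (!c x)
    by_cases h1 : x = sel ρ
    · rw [h1, Function.update_self, hx']
      cases c (sel ρ) <;> simp
    · rw [Function.update_of_ne h1]
  | second ρ m h hx hr ih =>
    have hx' : ρ (sel ρ) = none := hx
    have h2 : (univ.filter fun x => Function.update ρ (sel ρ) (some (!c (sel ρ))) x =
        some (!c x)) = insert (sel ρ) (univ.filter fun x => ρ x = some (!c x)) := by
      ext x
      rw [mem_filter_univ, mem_insert, mem_filter_univ]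
      by_cases h1 : x = sel ρ
      · rw [h1, Function.update_self]
        simp
      · rw [Function.update_of_ne h1]
        simp [h1]
    change m + 1 = #{x | Function.update ρ (sel ρ) (some (!c (sel ρ))) x = some (!c x)}
    rw [h2, card_insert_of_notMem, ← ih]
    rw [mem_filter_univ, hx']
    simp

theorem findsAt_fixed (T : ℝ) (sel : PA n → Fin n) (c : Asg n)
    (h : FindsAt F T (fun ρ => (sel ρ, c (sel ρ))) σ m) : m = hammingDist c σ := by
  rw [reach_fixed T sel c h.1, hammingDist]
  congr 1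
  refine filter_congr fun x _ => ?_
  cases c x <;> cases σ x <;> simp

/-- the number of the functions with few disagreements along an injective sequence -/
theorem coin_count {Ω : Type} [Fintype Ω] [DecidableEq Ω] (v : Fin n → Ω)
    (hv : Function.Injective v) (s : Asg n) (r B : ℝ)
    (hB : (#{τ : Asg n | (hammingDist s τ : ℝ) ≤ r} : ℝ) ≤ B) :
    (#{c : Ω → Bool | ((#{t | c (v t) ≠ s t} : ℕ) : ℝ) ≤ r} : ℝ) * 2 ^ n ≤
      B * Fintype.card (Ω → Bool) := by
  classical
  let e : (Ω → Bool) ≃ (Fin n → Bool) × ({ω // ¬ ω ∈ Set.range v} → Bool) :=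
    (Equiv.piEquivPiSubtypeProd (fun ω => ω ∈ Set.range v) (fun _ => Bool)).trans
      (Equiv.prodCongr (Equiv.arrowCongr (Equiv.ofInjective v hv).symm (Equiv.refl _))
        (Equiv.refl _))
  have he : ∀ c : Ω → Bool, (e c).1 = fun t => c (v t) := fun c => rfl
  have h1 : #{c : Ω → Bool | ((#{t | c (v t) ≠ s t} : ℕ) : ℝ) ≤ r} =
      #{τ : Asg n | (hammingDist s τ : ℝ) ≤ r} *
        Fintype.card ({ω // ¬ ω ∈ Set.range v} → Bool) := by
    rw [← card_univ (α := {ω // ¬ ω ∈ Set.range v} → Bool), ← card_product]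
    refine Finset.card_equiv e fun c => ?_
    have h2 : (#{t | c (v t) ≠ s t} : ℕ) = hammingDist s (e c).1 := by
      rw [he, hammingDist]
      congr 1
      exact filter_congr fun t _ => ne_comm
    rw [mem_filter_univ, mem_product, mem_filter_univ, h2]
    exact ⟨fun h => ⟨h, mem_univ _⟩, fun h => h.1⟩
  have h2 : Fintype.card (Ω → Bool) =
      2 ^ n * Fintype.card ({ω // ¬ ω ∈ Set.range v} → Bool) := by
    rw [Fintype.card_congr e, Fintype.card_prod]
    congr 1
    rw [Fintype.card_fun, Fintype.card_bool, Fintype.card_fin]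
  rw [h1, h2]
  push_cast
  have h3 : (0 : ℝ) ≤ Fintype.card ({ω // ¬ ω ∈ Set.range v} → Bool) := Nat.cast_nonneg _
  have h4 := mul_le_mul_of_nonneg_right hB (mul_nonneg (by positivity : (0 : ℝ) ≤ 2 ^ n) h3)
  linarith

end Pool.Agent.KS
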