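import Pool.Agent.Lib.MP_f017c9_lc_BT.Defs

/-!
# Random k-SAT: backtracking search, cores and safe nodes (definitions used in the proof)
-/

namespace Pool.Agent.KS

open Finset

variable {n k M : ℕ}

/-- the number of unassigned variables -/
def nf (ρ : PA n) : ℕ := #{x | ρ x = none}

/-- the assignment `σ` extends `ρ` -/
def Ext (ρ : PA n) (σ : Asg n) : Prop := ∀ x b, ρ x = some b → σ x = b

/-- the partial assignment `ρ'` extends `ρ` -/
def PExt (ρ ρ' : PA n) : Prop := ∀ x b, ρ x = some b → ρ' x = some b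

/-- `ρ` with the value `b` given to `x` -/
def upd (ρ : PA n) (x : Fin n) (b : Bool) : PA n := Function.update ρ x (some b)

/-- the clause is not satisfied by `ρ` -/
def Unsat (ρ : PA n) (c : Clause n k) : Prop := ∀ i, ρ (c.1 i) ≠ some (c.2 i)

/-- no assignment extending `ρ` satisfies all clauses in `C` -/
def Core (F : Formula n k M) (ρ : PA n) (C : Finset (Fin M)) : Prop :=
  ∀ σ, Ext ρ σ → ∃ j ∈ C, Violated σ (F j)

/-- a minimal core -/
def MinCore (F : Formula n k M) (ρ : PA n) (C : Finset (Fin M)) : Prop :=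
  Core F ρ C ∧ ∀ C', C' ⊂ C → ¬ Core F ρ C'

open Classical in
/-- the unassigned variables which occur in the clauses in `C` -/
noncomputable def fv (F : Formula n k M) (ρ : PA n) (C : Finset (Fin M)) : Finset (Fin n) :=
  univ.filter fun x => ρ x = none ∧ ∃ j ∈ C, ∃ i, (F j).1 i = x

/-- no core with at most `r` clauses -/
def Safe (F : Formula n k M) (r : ℕ) (ρ : PA n) : Prop :=
  ∀ C : Finset (Fin M), C.card ≤ r → ¬ Core F ρ C

/-- expansion of medium sets of unsatisfied clauses -/
def Med (F : Formula n k M) (U r : ℕ) : Prop :=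
  ∀ ρ : PA n, U ≤ nf ρ → ∀ C : Finset (Fin M), r < C.card → C.card ≤ 2 * r →
    (∀ j ∈ C, Unsat ρ (F j)) → 2 * C.card < (fv F ρ C).card

/-- the invariant: a set `R` of at most `r` clauses which live, up to falsified literals, on the
set `X` of variables, with `b` clauses `Ds` in `R` satisfied by `ρ` -/
def Inv (F : Formula n k M) (r : ℕ) (ρ : PA n) (b : ℕ) : Prop :=
  ∃ (R : Finset (Fin M)) (X : Finset (Fin n)) (Ds : Finset (Fin M)), Ds ⊆ R ∧ Ds.card = b ∧
    (∀ j ∈ Ds, ¬ Unsat ρ (F j)) ∧ R.card ≤ r ∧ X.card ≤ R.card + b ∧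
    ∀ j ∈ R, ∀ i, (F j).1 i ∈ X ∨ ρ ((F j).1 i) = some (!(F j).2 i)

/-- the formula has a satisfying assignment -/
def IsSat (F : Formula n k M) : Prop := ∃ σ : Asg n, ∀ j, ¬ Violated σ (F j)

end Pool.Agent.KS
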