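import Pool.Agent.Lib.MP_f017c9_lc_BT.Bse
import Pool.Agent.Lib.MP_f017c9_lc_BT.Ali

/-!
# Random k-SAT: backtracking search, narrow derivations do not refute safe nodes
-/

namespace Pool.Agent.KS

open Finset

variable {n k M : ℕ} {F : Formula n k M} {ρ : PA n} {r U : ℕ}

namespace Crt

/-- the clauses in `C` imply `E` below `ρ` -/
def Imp (F : Formula n k M) (ρ : PA n) (C : Finset (Fin M)) (E : Finset (Lit n)) : Prop :=
  ∀ σ : Asg n, Ext ρ σ → (∀ j ∈ C, ¬ Violated σ (F j)) → ∃ l ∈ E, σ l.1 = l.2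

open Classical in
/-- `ρ` extended by making the free literals of `E` false -/
noncomputable def fal (ρ : PA n) (E : Finset (Lit n)) : PA n := fun y =>
  if ρ y = none then (if (y, true) ∈ E then some false else
    if (y, false) ∈ E then some true else none) else ρ y

private theorem fal_some {ρ : PA n} {E : Finset (Lit n)} {y : Fin n} {b : Bool}
    (h : ρ y = some b) : fal ρ E y = some b := by
  unfold fal
  rw [if_neg (by rw [h]; simp), h]

private theorem fal_mem {ρ : PA n} {E : Finset (Lit n)}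
    (h2 : ¬ ∃ x, (x, true) ∈ E ∧ (x, false) ∈ E) {l : Lit n} (hl : l ∈ E)
    (h : ρ l.1 = none) : fal ρ E l.1 = some (!l.2) := by
  unfold fal
  rw [if_pos h]
  obtain ⟨y, b⟩ := l
  cases b
  · rw [if_neg (fun h3 => h2 ⟨y, h3, hl⟩), if_pos hl]
    rfl
  · rw [if_pos hl]
    rfl

private theorem nf_fal {ρ : PA n} {E : Finset (Lit n)} :
    nf ρ ≤ nf (fal ρ E) + #{l ∈ E | ρ l.1 = none} := by
  classical
  have h1 : ({x | ρ x = none} : Finset (Fin n)) ⊆
      ({x | fal ρ E x = none} : Finset (Fin n)) ∪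
        ({l ∈ E | ρ l.1 = none} : Finset (Lit n)).image Prod.fst := by
    intro x hx
    simp only [mem_filter, mem_univ, true_and] at hx
    simp only [mem_union, mem_filter, mem_univ, true_and, mem_image]
    by_cases h3 : (x, true) ∈ E
    · exact Or.inr ⟨(x, true), ⟨h3, hx⟩, rfl⟩
    · by_cases h4 : (x, false) ∈ E
      · exact Or.inr ⟨(x, false), ⟨h4, hx⟩, rfl⟩
      · left
        unfold fal
        rw [if_pos hx, if_neg h3, if_neg h4]
  refine (card_le_card h1).trans ((card_union_le _ _).trans ?_)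
  exact Nat.add_le_add_left card_image_le _

private theorem star (hm : Med F U r) {w : ℕ} {E : Finset (Lit n)} (hU : U + w ≤ nf ρ)
    (hE : ¬ ((∀ l ∈ E, ρ l.1 ≠ some l.2) ∧ w ≤ #{l ∈ E | ρ l.1 = none}))
    {C : Finset (Fin M)} (hC : C.card ≤ 2 * r) (hI : Imp F ρ C E) :
    ∃ C1 : Finset (Fin M), C1.card ≤ r ∧ Imp F ρ C1 E := by
  by_cases h1 : ∃ l ∈ E, ρ l.1 = some l.2
  · obtain ⟨l, hl, h⟩ := h1
    exact ⟨∅, by simp, fun σ hσ _ => ⟨l, hl, hσ _ _ h⟩⟩
  by_cases h2 : ∃ x, (x, true) ∈ E ∧ (x, false) ∈ E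
  · obtain ⟨x, hx1, hx2⟩ := h2
    refine ⟨∅, by simp, fun σ _ _ => ?_⟩
    cases h : σ x
    · exact ⟨(x, false), hx2, h⟩
    · exact ⟨(x, true), hx1, h⟩
  have h1' : ∀ l ∈ E, ρ l.1 ≠ some l.2 := fun l hl h => h1 ⟨l, hl, h⟩
  have hw : #{l ∈ E | ρ l.1 = none} < w := by
    by_contra hcon
    exact hE ⟨h1', not_lt.1 hcon⟩
  have hU' : U ≤ nf (fal ρ E) := by
    have := nf_fal (ρ := ρ) (E := E)
    omega
  have hcore : Core F (fal ρ E) C := by
    intro σ hσ
    by_contra hcon
    push Not at hcon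
    have hσ' : Ext ρ σ := fun x b h => hσ x b (fal_some h)
    obtain ⟨l, hl, hl2⟩ := hI σ hσ' hcon
    cases h : ρ l.1 with
    | none =>
      have h3 := hσ _ _ (fal_mem h2 hl h)
      rw [hl2] at h3
      cases hb : l.2 <;> rw [hb] at h3 <;> simp at h3
    | some b =>
      have h3 := hσ' _ _ h
      rw [hl2] at h3
      rw [← h3] at h
      exact h1' l hl h
  obtain ⟨C', hsub, hmin⟩ := exists_minCore hcore
  refine ⟨C', minCore_gap hm hU' hmin ((card_le_card hsub).trans hC), ?_⟩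
  intro σ hσ hv
  by_contra hcon
  push Not at hcon
  have hσ' : Ext (fal ρ E) σ := by
    intro y b hy
    cases h : ρ y with
    | some c =>
      rw [fal_some h] at hy
      rw [Option.some.injEq] at hy
      rw [← hy]
      exact hσ _ _ h
    | none =>
      unfold fal at hy
      rw [if_pos h] at hy
      split_ifs at hy with h3 h4
      · have h5 := hcon _ h3
        rw [Option.some.injEq] at hy
        rw [← hy]
        simpa using h5
      · have h5 := hcon _ h4
        rw [Option.some.injEq] at hy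
        rw [← hy]
        simpa using h5
  obtain ⟨j, hj, hj2⟩ := hmin.1 σ hσ'
  exact hv j hj hj2

private theorem imp_all (hm : Med F U r) (hr : 1 ≤ r) {w : ℕ} (hU : U + w ≤ nf ρ) :
    ∀ L : List (Finset (Lit n)), IsDeriv F L →
    (∀ E ∈ L, ¬ ((∀ l ∈ E, ρ l.1 ≠ some l.2) ∧ w ≤ #{l ∈ E | ρ l.1 = none})) →
    ∀ E ∈ L, ∃ C : Finset (Fin M), C.card ≤ r ∧ Imp F ρ C E := by
  intro L
  induction L with
  | nil =>
    intro _ _ E hE
    simp at hE
  | cons E0 L ih =>
    intro hL hA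
    obtain ⟨hL1, hL2⟩ := hL
    have ih' := ih hL1 (fun E hE => hA E (List.mem_cons_of_mem _ hE))
    intro E hE
    rw [List.mem_cons] at hE
    rcases hE with hE | hE
    · subst hE
      rcases hL2 with ⟨j, hj⟩ | ⟨C, hC, D, hD, x, hx1, hx2, hres⟩ | ⟨C, hC, hsub⟩
      · refine ⟨{j}, by simpa using hr, fun σ _ hv => ?_⟩
        have h1 := hv j (mem_singleton_self j)
        unfold Violated at h1
        push Not at h1
        obtain ⟨i, hi⟩ := h1
        refine ⟨((F j).1 i, (F j).2 i), ?_, hi⟩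
        rw [hj]
        exact mem_image_of_mem _ (mem_univ i)
      · obtain ⟨C1, hC1, hI1⟩ := ih' C hC
        obtain ⟨C2, hC2, hI2⟩ := ih' D hD
        refine star hm hU (hA E List.mem_cons_self) (C := C1 ∪ C2)
          ((card_union_le _ _).trans (by omega)) ?_
        intro σ hσ hv
        obtain ⟨l1, hl1, hs1⟩ := hI1 σ hσ (fun j hj => hv j (mem_union_left _ hj))
        obtain ⟨l2, hl2, hs2⟩ := hI2 σ hσ (fun j hj => hv j (mem_union_right _ hj))
        by_cases h1 : l1 = (x, true)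
        · by_cases h2 : l2 = (x, false)
          · rw [h1] at hs1
            rw [h2] at hs2
            simp only at hs1 hs2
            rw [hs1] at hs2
            exact absurd hs2 (by simp)
          · exact ⟨l2, by rw [hres]; exact mem_union_right _ (mem_erase.2 ⟨h2, hl2⟩), hs2⟩
        · exact ⟨l1, by rw [hres]; exact mem_union_left _ (mem_erase.2 ⟨h1, hl1⟩), hs1⟩
      · obtain ⟨C1, hC1, hI1⟩ := ih' C hC
        refine ⟨C1, hC1, fun σ hσ hv => ?_⟩
        obtain ⟨l, hl, hs⟩ := hI1 σ hσ hv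
        exact ⟨l, hsub hl, hs⟩
    · exact ih' E hE

end Crt

theorem crit (hm : Med F U r) (hr : 1 ≤ r) (w : ℕ) (L : List (Finset (Lit n)))
    (hL : IsDeriv F L) (hs : Safe F r ρ) (hU : U + w ≤ nf ρ) (hA : alive L.toFinset w ρ = ∅) :
    ∀ E ∈ L, ¬ Falsified ρ E := by
  have hA' : ∀ E ∈ L, ¬ ((∀ l ∈ E, ρ l.1 ≠ some l.2) ∧ w ≤ #{l ∈ E | ρ l.1 = none}) := by
    intro E hE h
    have h1 : E ∈ alive L.toFinset w ρ := mem_filter.2 ⟨List.mem_toFinset.2 hE, h⟩
    rw [hA] at h1
    simp at h1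
  intro E hE hF
  obtain ⟨C, hC, hI⟩ := Crt.imp_all hm hr hU L hL hA' E hE
  refine hs C hC ?_
  intro σ hσ
  by_contra hcon
  push Not at hcon
  obtain ⟨l, hl, hl2⟩ := hI σ hσ hcon
  have h3 := hσ _ _ (hF l hl)
  rw [hl2] at h3
  cases hb : l.2 <;> rw [hb] at h3 <;> simp at h3

end Pool.Agent.KS
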