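import Pool.Agent.Lib.MP_f017c9_lc.Defs

/-!
# Random k-SAT: backtracking search with clause learning (definitions)
-/

namespace Pool.Agent.KS

open Finset

variable {n k M : ℕ}

/-- A partial assignment of the variables `0, ..., n-1`. -/
abbrev PA (n : ℕ) := Fin n → Option Bool

/-- The literal `(x, b)` on the variable `x` is made true by `x = b`. -/
abbrev Lit (n : ℕ) := Fin n × Bool

/-- The set of the literals of a clause. -/
def lits (c : Clause n k) : Finset (Lit n) := univ.image fun i => (c.1 i, c.2 i)

/-- `L` is a resolution derivation from the clauses of `F`, listed with the last line first: every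
line is a clause of `F`, or a resolvent of two earlier lines, or a weakening of an earlier line. -/
def IsDeriv (F : Formula n k M) : List (Finset (Lit n)) → Prop
  | [] => True
  | E :: L => IsDeriv F L ∧ ((∃ j, E = lits (F j)) ∨
      (∃ C ∈ L, ∃ D ∈ L, ∃ x, (x, true) ∈ C ∧ (x, false) ∈ D ∧
        E = C.erase (x, true) ∪ D.erase (x, false)) ∨
      ∃ C ∈ L, C ⊆ E)

/-- The partial assignment `ρ` makes all literals of `E` false. -/
def Falsified (ρ : PA n) (E : Finset (Lit n)) : Prop := ∀ l ∈ E, ρ l.1 = some (!l.2)

/-- `ρ` is refuted within `T` lines: a resolution derivation of length at most `T` from the clauses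
of `F` contains a clause which is falsified by `ρ`. -/
def Refuted (F : Formula n k M) (T : ℝ) (ρ : PA n) : Prop :=
  ∃ L : List (Finset (Lit n)), IsDeriv F L ∧ (L.length : ℝ) ≤ T ∧ ∃ E ∈ L, Falsified ρ E

/-- The nodes reached by the backtracking search with the branching rule `rule` (at the node `ρ`
the variable `(rule ρ).1` is chosen, it gets first the value `(rule ρ).2`, and it gets the other
value only after the first child has been refuted within `T` lines), with the number `m` of the
corrections (second values) on the way from the root. -/
inductive Reach (F : Formula n k M) (T : ℝ) (rule : PA n → Lit n) : PA n → ℕ → Prop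
  | root : Reach F T rule (fun _ => none) 0
  | first (ρ : PA n) (m : ℕ) (h : Reach F T rule ρ m) (hx : ρ (rule ρ).1 = none) :
      Reach F T rule (Function.update ρ (rule ρ).1 (some (rule ρ).2)) m
  | second (ρ : PA n) (m : ℕ) (h : Reach F T rule ρ m) (hx : ρ (rule ρ).1 = none)
      (hr : Refuted F T (Function.update ρ (rule ρ).1 (some (rule ρ).2))) :
      Reach F T rule (Function.update ρ (rule ρ).1 (some (!(rule ρ).2))) (m + 1)

/-- The search reaches, with `m` corrections, the satisfying assignment `σ`. -/
def FindsAt (F : Formula n k M) (T : ℝ) (rule : PA n → Lit n) (σ : Asg n) (m : ℕ) : Prop :=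
  Reach F T rule (fun x => some (σ x)) m ∧ ∀ j, ¬ Violated σ (F j)

/-- The search reaches a satisfying assignment. -/
def Finds (F : Formula n k M) (T : ℝ) (rule : PA n → Lit n) : Prop :=
  ∃ σ m, FindsAt F T rule σ m

end Pool.Agent.KS
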