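import Pool.Agent.Lib.MP_f017c9_lc_BT.Bas

/-!
# Random k-SAT: backtracking search, the deficiency lemma for minimal cores
-/

namespace Pool.Agent.KS

open Finset

variable {n k M : ℕ} {F : Formula n k M} {ρ : PA n} {C S : Finset (Fin M)}

private theorem Dfc_mem {C : Finset (Fin M)} {x : Fin n} :
    x ∈ fv F ρ C ↔ ρ x = none ∧ ∃ j ∈ C, ∃ i, (F j).1 i = x := by
  unfold fv
  simp only [mem_filter, mem_univ, true_and]

/-- In a minimal core the number of the free variables which occur only in the clauses in `S` is at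
most the number of the clauses in `S`. -/
theorem deficiency (h : MinCore F ρ C) (hS : S ⊆ C) :
    (fv F ρ C \ fv F ρ (C \ S)).card ≤ S.card := by
  classical
  by_contra hlt
  push Not at hlt
  obtain ⟨V, hV⟩ : ∃ V : Finset (Fin n), V = fv F ρ C \ fv F ρ (C \ S) := ⟨_, rfl⟩
  rw [← hV] at hlt
  have hVf : ∀ x ∈ V, ρ x = none := fun x hx => by
    rw [hV, mem_sdiff] at hx
    exact (Dfc_mem.1 hx.1).1
  have hVo : ∀ x ∈ V, ∃ j ∈ S, ∃ i, (F j).1 i = x := fun x hx => by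
    rw [hV, mem_sdiff] at hx
    obtain ⟨h1, j, hj, i, hi⟩ := Dfc_mem.1 hx.1
    by_cases hjS : j ∈ S
    · exact ⟨j, hjS, i, hi⟩
    · exact absurd (Dfc_mem.2 ⟨h1, j, mem_sdiff.2 ⟨hj, hjS⟩, i, hi⟩) hx.2
  have hVn : ∀ x ∈ V, ∀ j ∈ C, j ∉ S → ∀ i, (F j).1 i ≠ x := fun x hx j hj hjS i hi => by
    have hx' := hx
    rw [hV, mem_sdiff] at hx'
    exact hx'.2 (Dfc_mem.2 ⟨hVf x hx, j, mem_sdiff.2 ⟨hj, hjS⟩, i, hi⟩)
  obtain ⟨N, hN⟩ : ∃ N : Finset (Fin M) → Finset (Fin n),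
    N = fun A => A.biUnion fun j => V ∩ univ.image fun i => (F j).1 i := ⟨_, rfl⟩
  have hNm : ∀ A x, x ∈ N A ↔ x ∈ V ∧ ∃ j ∈ A, ∃ i, (F j).1 i = x := fun A x => by
    rw [hN]
    simp only [mem_biUnion, mem_inter, mem_image, mem_univ, true_and]
    constructor
    · rintro ⟨j, hj, hx, i, hi⟩
      exact ⟨hx, j, hj, i, hi⟩
    · rintro ⟨hx, j, hj, i, hi⟩
      exact ⟨j, hj, hx, i, hi⟩
  obtain ⟨A, hA, hmax⟩ := Finset.exists_max_image S.powerset
    (fun A => (A.card : ℤ) - ((N A).card : ℤ)) ⟨∅, empty_mem_powerset S⟩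
  rw [mem_powerset] at hA
  have hNA : (N A).card ≤ A.card := by
    have h1 := hmax ∅ (empty_mem_powerset S)
    have h2 : N ∅ = ∅ := by
      ext x
      rw [hNm]
      simp
    rw [h2] at h1
    simp only [card_empty, Nat.cast_zero, sub_zero] at h1
    omega
  -- Hall
  have hall : ∀ s : Finset {j // j ∈ S \ A}, s.card ≤
      (s.biUnion fun j => (V \ N A) ∩ univ.image fun i => (F j.1).1 i).card := by
    intro s
    obtain ⟨B, hB⟩ : ∃ B : Finset (Fin M), B = s.map (Function.Embedding.subtype _) := ⟨_, rfl⟩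
    have hBc : B.card = s.card := by rw [hB, card_map]
    have hBm : ∀ j, j ∈ B ↔ ∃ hj : j ∈ S \ A, ⟨j, hj⟩ ∈ s := fun j => by
      rw [hB]
      simp
    have hBS : B ⊆ S \ A := fun j hj => ((hBm j).1 hj).1
    have hd : Disjoint A B := by
      rw [Finset.disjoint_right]
      exact fun j hj => (mem_sdiff.1 (hBS hj)).2
    have h1 := hmax (A ∪ B) (mem_powerset.2 (union_subset hA fun j hj =>
      (mem_sdiff.1 (hBS hj)).1))
    rw [card_union_of_disjoint hd] at h1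
    have h2 : N (A ∪ B) ⊆ N A ∪ (s.biUnion fun j =>
        (V \ N A) ∩ univ.image fun i => (F j.1).1 i) := by
      intro x hx
      obtain ⟨hxV, j, hj, i, hi⟩ := (hNm _ _).1 hx
      by_cases hxA : x ∈ N A
      · exact mem_union_left _ hxA
      · refine mem_union_right _ ?_
        rcases mem_union.1 hj with hj | hj
        · exact absurd ((hNm _ _).2 ⟨hxV, j, hj, i, hi⟩) hxA
        · obtain ⟨hj1, hj2⟩ := (hBm j).1 hj
          refine mem_biUnion.2 ⟨⟨j, hj1⟩, hj2, mem_inter.2 ⟨mem_sdiff.2 ⟨hxV, hxA⟩, ?_⟩⟩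
          exact mem_image.2 ⟨i, mem_univ _, hi⟩
    have h3 := (card_le_card h2).trans (card_union_le _ _)
    rw [← hBc]
    push_cast at h1
    omega
  obtain ⟨f, hf1, hf2⟩ := (Finset.all_card_le_biUnion_card_iff_exists_injective
    (fun j : {j // j ∈ S \ A} => (V \ N A) ∩ univ.image fun i => (F j.1).1 i)).1 hall
  have hfV : ∀ j, f j ∈ V ∧ f j ∉ N A := fun j => mem_sdiff.1 (mem_inter.1 (hf2 j)).1
  have hfo : ∀ j : {j // j ∈ S \ A}, ∃ i, (F j.1).1 i = f j := fun j => by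
    obtain ⟨i, -, hi⟩ := mem_image.1 (mem_inter.1 (hf2 j)).2
    exact ⟨i, hi⟩
  choose pos hpos using hfo
  -- S \ A is nonempty
  have hne : ∃ j, j ∈ S \ A := by
    obtain ⟨x, hx, hxA⟩ : ∃ x ∈ V, x ∉ N A := by
      by_contra hcon
      push Not at hcon
      have h1 := card_le_card (show V ⊆ N A from hcon)
      have h2 := card_le_card hA
      omega
    obtain ⟨j, hj, i, hi⟩ := hVo x hx
    exact ⟨j, mem_sdiff.2 ⟨hj, fun hjA => hxA ((hNm _ _).2 ⟨hx, j, hjA, i, hi⟩)⟩⟩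
  obtain ⟨j0, hj0⟩ := hne
  have hss : C \ (S \ A) ⊂ C := by
    refine ⟨sdiff_subset, fun hsub => ?_⟩
    exact (mem_sdiff.1 (hsub (hS (mem_sdiff.1 hj0).1))).2 hj0
  have hnc := h.2 _ hss
  unfold Core at hnc
  push Not at hnc
  obtain ⟨σ, hσ, hσC⟩ := hnc
  obtain ⟨σ', hσ'⟩ : ∃ σ' : Asg n, σ' = fun x =>
    if hx : ∃ j, f j = x then (F hx.choose.1).2 (pos hx.choose) else σ x := ⟨_, rfl⟩
  have hv1 : ∀ j, σ' (f j) = (F j.1).2 (pos j) := by
    intro j
    have hx : ∃ j', f j' = f j := ⟨j, rfl⟩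
    have he : hx.choose = j := hf1 hx.choose_spec
    rw [hσ']
    simp only
    rw [dif_pos hx, he]
  have hv2 : ∀ x, (¬ ∃ j, f j = x) → σ' x = σ x := by
    intro x hx
    rw [hσ']
    simp only
    rw [dif_neg hx]
  have hext : Ext ρ σ' := by
    intro x b hb
    by_cases hx : ∃ j, f j = x
    · obtain ⟨j, rfl⟩ := hx
      rw [hVf _ (hfV j).1] at hb
      cases hb
    · rw [hv2 x hx]
      exact hσ x b hb
  obtain ⟨j, hjC, hjv⟩ := h.1 σ' hext
  by_cases hj : j ∈ S \ A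
  · have h1 := hjv (pos ⟨j, hj⟩)
    have h2 := hpos ⟨j, hj⟩
    simp only at h2
    rw [h2] at h1
    exact h1 (hv1 ⟨j, hj⟩)
  · refine hσC j (mem_sdiff.2 ⟨hjC, hj⟩) fun i => ?_
    rw [← hv2]
    · exact hjv i
    · rintro ⟨j', hj'⟩
      by_cases hjS : j ∈ S
      · have hjA : j ∈ A := by
          by_contra hcon
          exact hj (mem_sdiff.2 ⟨hjS, hcon⟩)
        exact (hfV j').2 ((hNm _ _).2 ⟨(hfV j').1, j, hjA, i, hj'.symm⟩)
      · exact hVn _ (hfV j').1 j hjC hjS i hj'.symm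

/-- The case `S = C`. -/
theorem card_fv_le (h : MinCore F ρ C) : (fv F ρ C).card ≤ C.card := by
  classical
  have h1 := deficiency h (Finset.Subset.refl C)
  have h2 : fv F ρ (C \ C) = ∅ := by
    ext x
    rw [Dfc_mem]
    simp
  rwa [h2, sdiff_empty] at h1

end Pool.Agent.KS
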