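import Pool.Agent.Lib.MP_f017c9_lc_BT.Coi
import Pool.Agent.Lib.MP_f017c9_lc_BT.Cnt

/-!
# Random k-SAT: backtracking search, few corrections with random or fixed first values
-/

namespace Pool.Agent.KS

open Finset

variable {n k M : ℕ}

private theorem Drk_prod {α β : Type*} [Fintype α] [Fintype β] (P : α → Prop)
    (Q : α → β → Prop) [DecidablePred P] [∀ a, DecidablePred (Q a)]
    [DecidablePred fun y : α × β => P y.1 ∧ Q y.1 y.2] :
    #{y : α × β | P y.1 ∧ Q y.1 y.2} = ∑ a with P a, #{b | Q a b} := by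
  rw [Finset.card_filter, Fintype.sum_prod_type, Finset.sum_filter]
  refine Finset.sum_congr rfl fun a _ => ?_
  by_cases h : P a
  · rw [if_pos h, Finset.card_filter]
    refine Finset.sum_congr rfl fun b _ => ?_
    simp [h]
  · rw [if_neg h]
    refine Finset.sum_eq_zero fun b _ => ?_
    rw [if_neg (fun h' => h h'.1)]

private theorem Drk_path (F : Formula n k M) (T : ℝ) (sel : PA n → Fin n) (coin : PA n → Bool)
    (σ : Asg n) (m : ℕ) (h : FindsAt F T (fun ρ => (sel ρ, coin ρ)) σ m) :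
    (Function.Injective fun t : Fin n => node sel σ t) ∧
      #{t : Fin n | coin (node sel σ t) ≠ σ (sel (node sel σ t))} = m := by
  obtain ⟨t, h1, h2, h3, h4⟩ := reach_node (σ := σ) T sel coin h.1
    (fun x b hb => Option.some.inj hb)
  have h5 : nf (fun x => some (σ x)) = 0 := by simp [nf]
  have h6 : t = n := by omega
  rw [h6] at h3 h4
  refine ⟨fun s t hst => ?_, ?_⟩
  · have e1 := h3 s s.2
    have e2 := h3 t t.2
    have e3 : node sel σ s = node sel σ t := hst
    rw [e3] at e1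
    exact Fin.ext (by omega)
  · rw [h4, Finset.card_filter, Finset.card_filter, Finset.sum_range]

open Classical in
theorem drunk_few (T r B : ℝ) (sel : Formula n k M → PA n → Fin n)
    (hB : ∀ σ : Asg n, (#{τ : Asg n | (hammingDist σ τ : ℝ) ≤ r} : ℝ) ≤ B) :
    (#{y : Formula n k M × (PA n → Bool) | ∃ σ m,
        FindsAt y.1 T (fun ρ => (sel y.1 ρ, y.2 ρ)) σ m ∧ (m : ℝ) ≤ r} : ℝ) ≤
      B * Real.exp (-(M / 2 ^ k)) * Fintype.card (Formula n k M × (PA n → Bool)) := by
  have hB0 : 0 ≤ B := (Nat.cast_nonneg _).trans (hB fun _ => false)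
  obtain ⟨Q, hQ⟩ : ∃ Q : Asg n → Formula n k M → (PA n → Bool) → Prop, ∀ σ F c, Q σ F c ↔
      (Function.Injective fun t : Fin n => node (sel F) σ t) ∧
      ((#{t : Fin n | c (node (sel F) σ t) ≠ σ (sel F (node (sel F) σ t))} : ℕ) : ℝ) ≤ r :=
    ⟨_, fun _ _ _ => Iff.rfl⟩
  have hsub : (univ.filter fun y : Formula n k M × (PA n → Bool) => ∃ σ m,
      FindsAt y.1 T (fun ρ => (sel y.1 ρ, y.2 ρ)) σ m ∧ (m : ℝ) ≤ r) ⊆
      univ.biUnion fun σ : Asg n => univ.filter fun y : Formula n k M × (PA n → Bool) =>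
        (∀ j, ¬ Violated σ (y.1 j)) ∧ Q σ y.1 y.2 := by
    intro y hy
    rw [Finset.mem_filter] at hy
    obtain ⟨-, σ, m, hf, hm⟩ := hy
    rw [Finset.mem_biUnion]
    refine ⟨σ, Finset.mem_univ _, ?_⟩
    rw [Finset.mem_filter]
    obtain ⟨h1, h2⟩ := Drk_path y.1 T (sel y.1) y.2 σ m hf
    exact ⟨Finset.mem_univ _, hf.2, (hQ _ _ _).2 ⟨h1, by rw [h2]; exact hm⟩⟩
  have hC : ∀ (σ : Asg n) (F : Formula n k M), ((#{c | Q σ F c} : ℕ) : ℝ) ≤
      B * Fintype.card (PA n → Bool) / 2 ^ n := by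
    intro σ F
    rw [le_div_iff₀ (by positivity)]
    by_cases hv : Function.Injective fun t : Fin n => node (sel F) σ t
    · have h1 := coin_count (fun t : Fin n => node (sel F) σ t) hv
        (fun t => σ (sel F (node (sel F) σ t))) r B (by
          have := hB fun t => σ (sel F (node (sel F) σ t))
          convert this using 3)
      refine le_trans (mul_le_mul_of_nonneg_right ?_ (by positivity)) h1
      exact_mod_cast Finset.card_le_card fun c hc => by
        rw [Finset.mem_filter] at hc ⊢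
        exact ⟨hc.1, ((hQ _ _ _).1 hc.2).2⟩
    · have h1 : (#{c | Q σ F c} : ℕ) = 0 := by
        rw [Finset.card_eq_zero, Finset.filter_eq_empty_iff]
        exact fun c _ hc => hv ((hQ _ _ _).1 hc).1
      rw [h1]
      have : 0 ≤ B * Fintype.card (PA n → Bool) := by positivity
      simpa using this
  have hD : ∀ σ : Asg n, ((#{y : Formula n k M × (PA n → Bool) |
      (∀ j, ¬ Violated σ (y.1 j)) ∧ Q σ y.1 y.2} : ℕ) : ℝ) ≤
      Real.exp (-(M / 2 ^ k)) * Fintype.card (Formula n k M) *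
        (B * Fintype.card (PA n → Bool) / 2 ^ n) := by
    intro σ
    rw [Drk_prod (fun F : Formula n k M => ∀ j, ¬ Violated σ (F j)) (fun F c => Q σ F c)]
    push_cast
    refine (Finset.sum_le_sum fun F _ => hC σ F).trans ?_
    rw [Finset.sum_const, nsmul_eq_mul]
    refine mul_le_mul_of_nonneg_right ?_ (by positivity)
    have h1 := sat_count (k := k) (M := M) σ
    convert h1 using 3
  have hE : ((#{y : Formula n k M × (PA n → Bool) | ∃ σ m,
      FindsAt y.1 T (fun ρ => (sel y.1 ρ, y.2 ρ)) σ m ∧ (m : ℝ) ≤ r} : ℕ) : ℝ) ≤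
      ∑ σ : Asg n, ((#{y : Formula n k M × (PA n → Bool) |
        (∀ j, ¬ Violated σ (y.1 j)) ∧ Q σ y.1 y.2} : ℕ) : ℝ) := by
    exact_mod_cast (Finset.card_le_card hsub).trans Finset.card_biUnion_le
  refine hE.trans ((Finset.sum_le_sum fun σ _ => hD σ).trans (le_of_eq ?_))
  rw [Finset.sum_const, nsmul_eq_mul, Finset.card_univ, Fintype.card_prod]
  have h2 : Fintype.card (Asg n) = 2 ^ n := by simp
  rw [h2]
  push_cast
  have h3 : (2 : ℝ) ^ n ≠ 0 := by positivity
  field_simp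

open Classical in
theorem phase_few (T r B : ℝ) (c : Asg n)
    (hB : ∀ σ : Asg n, (#{τ : Asg n | (hammingDist σ τ : ℝ) ≤ r} : ℝ) ≤ B) :
    (#{F : Formula n k M | ∃ sel : PA n → Fin n, ∃ σ m,
        FindsAt F T (fun ρ => (sel ρ, c (sel ρ))) σ m ∧ (m : ℝ) ≤ r} : ℝ) ≤
      B * Real.exp (-(M / 2 ^ k)) * Fintype.card (Formula n k M) := by
  have hsub : (univ.filter fun F : Formula n k M => ∃ sel : PA n → Fin n, ∃ σ m,
      FindsAt F T (fun ρ => (sel ρ, c (sel ρ))) σ m ∧ (m : ℝ) ≤ r) ⊆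
      (univ.filter fun σ : Asg n => (hammingDist c σ : ℝ) ≤ r).biUnion fun σ : Asg n =>
        univ.filter fun F : Formula n k M => ∀ j, ¬ Violated σ (F j) := by
    intro F hF
    rw [Finset.mem_filter] at hF
    obtain ⟨-, sel, σ, m, hf, hm⟩ := hF
    rw [Finset.mem_biUnion]
    have h1 := findsAt_fixed T sel c hf
    rw [h1] at hm
    exact ⟨σ, Finset.mem_filter.2 ⟨Finset.mem_univ _, hm⟩,
      Finset.mem_filter.2 ⟨Finset.mem_univ _, hf.2⟩⟩
  have hE : ((#{F : Formula n k M | ∃ sel : PA n → Fin n, ∃ σ m,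
      FindsAt F T (fun ρ => (sel ρ, c (sel ρ))) σ m ∧ (m : ℝ) ≤ r} : ℕ) : ℝ) ≤
      ∑ σ ∈ univ.filter fun σ : Asg n => (hammingDist c σ : ℝ) ≤ r,
        ((#{F : Formula n k M | ∀ j, ¬ Violated σ (F j)} : ℕ) : ℝ) := by
    exact_mod_cast (Finset.card_le_card hsub).trans Finset.card_biUnion_le
  have hD : ∀ σ : Asg n, ((#{F : Formula n k M | ∀ j, ¬ Violated σ (F j)} : ℕ) : ℝ) ≤
      Real.exp (-(M / 2 ^ k)) * Fintype.card (Formula n k M) := by
    intro σ
    have h1 := sat_count (k := k) (M := M) σ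
    convert h1 using 3
  refine hE.trans ((Finset.sum_le_sum fun σ _ => hD σ).trans ?_)
  rw [Finset.sum_const, nsmul_eq_mul, mul_assoc]
  exact mul_le_mul_of_nonneg_right (hB c) (by positivity)

end Pool.Agent.KS
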