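import Pool.Agent.Lib.MP_f017c9_lc_BT.Bse

/-!
# Random k-SAT: backtracking search, the invariant which bounds the number of forced steps
-/

namespace Pool.Agent.KS

open Finset

variable {n k M : ℕ} {F : Formula n k M} {ρ ρ' : PA n} {x : Fin n} {r U b : ℕ}

theorem inv_zero (F : Formula n k M) (r : ℕ) (ρ : PA n) : Inv F r ρ 0 := by
  exact ⟨∅, ∅, ∅, subset_rfl, card_empty, by simp, by simp, by simp, by simp⟩

theorem inv_le (h : Inv F r ρ b) : b ≤ r := by
  obtain ⟨R, X, Ds, h1, h2, -, h3, -, -⟩ := h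
  rw [← h2]
  exact (card_le_card h1).trans h3

theorem inv_mono (h : PExt ρ ρ') (hI : Inv F r ρ b) : Inv F r ρ' b := by
  obtain ⟨R, X, Ds, h1, h2, h3, h4, h5, h6⟩ := hI
  refine ⟨R, X, Ds, h1, h2, fun j hj hu => h3 j hj (unsat_of_pext h hu), h4, h5,
    fun j hj i => ?_⟩
  rcases h6 j hj i with h7 | h7
  · exact Or.inl h7
  · exact Or.inr (h _ _ h7)

/-- a forced step: the value `v` of `x` leads to an unsafe node, the other value is taken -/
theorem inv_forced (hm : Med F U r) (hs : Safe F r ρ) (hx : ρ x = none) (hU : U + 1 ≤ nf ρ)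
    (hI : Inv F r ρ b) (v : Bool) (hns : ¬ Safe F r (upd ρ x v)) :
    Inv F r (upd ρ x (!v)) (b + 1) := by
  classical
  obtain ⟨C, hC, hCr⟩ : ∃ C, MinCore F (upd ρ x v) C ∧ C.card ≤ r := by
    unfold Safe at hns
    push Not at hns
    obtain ⟨C₀, h1, h2⟩ := hns
    obtain ⟨C, h3, h4⟩ := exists_minCore h2
    exact ⟨C, h4, (card_le_card h3).trans h1⟩
  obtain ⟨D, hD, i₀, hi1, hi2⟩ := minCore_lit hs hx v hC hCr
  obtain ⟨R, X, Ds, hDR, hb, hsat, hRr, hXR, hocc⟩ := hI
  have hv := pext_upd hx v
  have hv' := pext_upd hx (!v)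
  have hDs : D ∉ Ds := fun h => hsat D h (unsat_of_pext hv (minCore_unsat hC hD))
  obtain ⟨X', hX'⟩ : ∃ X' : Finset (Fin n), X' = insert x (X ∪
      (fv F (upd ρ x v) C \ fv F (upd ρ x v) (C \ (C \ R)))) := ⟨_, rfl⟩
  have hxX : x ∈ X' := by
    rw [hX']
    exact mem_insert_self _ _
  have hXX : ∀ y ∈ X, y ∈ X' := fun y hy => by
    rw [hX']
    exact mem_insert_of_mem (mem_union_left _ hy)
  have hcR : (R ∪ C).card = R.card + (C \ R).card := by
    rw [← union_sdiff_self_eq_union, card_union_of_disjoint disjoint_sdiff]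
  have hcX : X'.card ≤ (R ∪ C).card + (b + 1) := by
    have h1 := deficiency hC (sdiff_subset (s := C) (t := R))
    rw [hX']
    refine (card_insert_le _ _).trans ?_
    have h2 := card_union_le X (fv F (upd ρ x v) C \ fv F (upd ρ x v) (C \ (C \ R)))
    omega
  have hsub : insert D Ds ⊆ R ∪ C := by
    rw [insert_subset_iff]
    exact ⟨mem_union_right _ hD, hDR.trans subset_union_left⟩
  have hcD : (insert D Ds).card = b + 1 := by
    rw [card_insert_of_notMem hDs, hb]
  have hocc' : ∀ j ∈ R ∪ C, ∀ i, (F j).1 i ∈ X' ∨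
      upd ρ x (!v) ((F j).1 i) = some (!(F j).2 i) := by
    intro j hj i
    by_cases hjR : j ∈ R
    · rcases hocc j hjR i with h | h
      · exact Or.inl (hXX _ h)
      · exact Or.inr (hv' _ _ h)
    have hjC : j ∈ C := (mem_union.1 hj).resolve_left hjR
    by_cases hyx : (F j).1 i = x
    · left
      rw [hyx]
      exact hxX
    have hu := minCore_unsat hC hjC i
    rw [upd_ne ρ v hyx] at hu
    rcases hρ : ρ ((F j).1 i) with _ | w
    · left
      by_cases hm' : (F j).1 i ∈ fv F (upd ρ x v) (C \ (C \ R))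
      · unfold fv at hm'
        rw [mem_filter] at hm'
        obtain ⟨-, -, j', hj', i', hi'⟩ := hm'
        rw [mem_sdiff, mem_sdiff] at hj'
        have hj'R : j' ∈ R := by
          by_contra h
          exact hj'.2 ⟨hj'.1, h⟩
        rcases hocc j' hj'R i' with h | h
        · rw [hi'] at h
          exact hXX _ h
        · rw [hi', hρ] at h
          exact absurd h (by simp)
      · rw [hX']
        refine mem_insert_of_mem (mem_union_right _ (mem_sdiff.2 ⟨?_, hm'⟩))
        unfold fv
        rw [mem_filter]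
        exact ⟨mem_univ _, by rw [upd_ne ρ v hyx]; exact hρ, j, hjC, i, rfl⟩
    · right
      rw [upd_ne ρ (!v) hyx, hρ]
      rw [hρ] at hu
      have hw : w ≠ (F j).2 i := fun h => hu (by rw [h])
      congr 1
      cases w <;> cases h : (F j).2 i <;> simp_all
  refine ⟨R ∪ C, X', insert D Ds, hsub, hcD, ?_, ?_, hcX, hocc'⟩
  · intro j hj hu
    rw [mem_insert] at hj
    rcases hj with rfl | hj
    · apply hu i₀
      rw [hi1, hi2, upd_same]
    · exact hsat j hj (unsat_of_pext hv' hu)
  · by_contra hcon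
    push Not at hcon
    have h2r : (R ∪ C).card ≤ 2 * r := by
      have := card_union_le R C
      omega
    obtain ⟨ρs, hρ1, hρ2⟩ : ∃ ρs : PA n, (∀ y ∈ X', ρs y = none) ∧
        ∀ y, y ∉ X' → ρs y = upd ρ x (!v) y :=
      ⟨fun y => if y ∈ X' then none else upd ρ x (!v) y, fun y hy => if_pos hy,
        fun y hy => if_neg hy⟩
    have hpe : PExt ρs (upd ρ x (!v)) := by
      intro y c hy
      by_cases hyX : y ∈ X'
      · rw [hρ1 y hyX] at hy
        exact absurd hy (by simp)
      · rwa [← hρ2 y hyX]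
    have hnf := nf_le_of_pext hpe
    have hnf' := nf_upd hx (!v)
    have h3 := hm ρs (by omega) (R ∪ C) hcon h2r (by
      intro j hj i
      by_cases hyX : (F j).1 i ∈ X'
      · rw [hρ1 _ hyX]
        simp
      · rcases hocc' j hj i with h | h
        · exact absurd h hyX
        · rw [hρ2 _ hyX, h]
          simp)
    have h4 : fv F ρs (R ∪ C) ⊆ X' := by
      intro y hy
      unfold fv at hy
      rw [mem_filter] at hy
      obtain ⟨-, hy1, j, hj, i, hi⟩ := hy
      by_contra hyX
      rw [hρ2 y hyX] at hy1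
      rcases hocc' j hj i with h | h
      · rw [hi] at h
        exact hyX h
      · rw [hi, hy1] at h
        exact absurd h (by simp)
    have h5 := card_le_card h4
    have h6 := card_le_card hsub
    omega

end Pool.Agent.KS
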