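import Pool.Agent.Lib.MP_f017c9_lc_BT.Ivt
import Pool.Agent.Lib.MP_f017c9_lc_BT.Ali

/-!
# Random k-SAT: backtracking search, a safe extension which kills all wide lines
-/

namespace Pool.Agent.KS

open Finset

variable {n k M : ℕ} {F : Formula n k M} {ρ : PA n} {r U : ℕ}

private theorem kil_aux (hm : Med F U r) (w : ℕ) (hw : 1 ≤ w) (L : Finset (Finset (Lit n)))
    (c : ℝ) (hc : c = 1 - w / (2 * n)) (hc0 : 0 ≤ c) :
    ∀ (N : ℕ) (ρ : PA n) (a b : ℕ), nf ρ = N → Safe F r ρ → Inv F r ρ b →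
      U + w + a + r ≤ nf ρ + b → ((alive L w ρ).card : ℝ) * c ^ a < 1 →
      ∃ ρ', PExt ρ ρ' ∧ Safe F r ρ' ∧ U + w ≤ nf ρ' ∧ alive L w ρ' = ∅ := by
  intro N
  induction N with
  | zero =>
    intro ρ a b hN _ hI hn _
    have hb := inv_le hI
    omega
  | succ N ih =>
    intro ρ a b hN hs hI hn hL
    have hb := inv_le hI
    rcases Finset.eq_empty_or_nonempty (alive L w ρ) with he | hne
    · exact ⟨ρ, pext_refl ρ, hs, by omega, he⟩
    · obtain ⟨x, v, hx, hcard⟩ := alive_step L w hw ρ hne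
      rw [← hc] at hcard
      have hnf : ∀ v', nf (upd ρ x v') = N := fun v' => by
        have := nf_upd hx v'
        omega
      have hone : (1 : ℝ) ≤ (alive L w ρ).card := by
        exact_mod_cast hne.card_pos
      have ha : 1 ≤ a := by
        by_contra h0
        have h1 : a = 0 := by omega
        rw [h1, pow_zero, mul_one] at hL
        linarith
      obtain ⟨a', rfl⟩ : ∃ a', a = a' + 1 := ⟨a - 1, by omega⟩
      by_cases hsv : Safe F r (upd ρ x v)
      · obtain ⟨ρ', h1, h2, h3, h4⟩ := ih (upd ρ x v) a' b (hnf v) hsv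
          (inv_mono (pext_upd hx v) hI) (by rw [hnf v]; omega) (by
            have h5 : ((alive L w (upd ρ x v)).card : ℝ) * c ^ a' ≤
                ((alive L w ρ).card * c) * c ^ a' :=
              mul_le_mul_of_nonneg_right hcard (pow_nonneg hc0 _)
            have h6 : ((alive L w ρ).card * c) * c ^ a' =
                ((alive L w ρ).card : ℝ) * c ^ (a' + 1) := by ring
            linarith)
        exact ⟨ρ', pext_trans (pext_upd hx v) h1, h2, h3, h4⟩
      · have hs' : Safe F r (upd ρ x (!v)) :=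
          (safe_or hm hs (by omega) hx v).resolve_left hsv
        have hI' := inv_forced hm hs hx (by omega) hI v hsv
        obtain ⟨ρ', h1, h2, h3, h4⟩ := ih (upd ρ x (!v)) (a' + 1) (b + 1) (hnf _) hs' hI'
          (by rw [hnf]; omega) (by
            have h5 : ((alive L w (upd ρ x (!v))).card : ℝ) ≤ (alive L w ρ).card := by
              exact_mod_cast Finset.card_le_card (alive_anti L w (pext_upd hx (!v)))
            have h6 := mul_le_mul_of_nonneg_right h5 (pow_nonneg hc0 (a' + 1))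
            linarith)
        exact ⟨ρ', pext_trans (pext_upd hx _) h1, h2, h3, h4⟩

theorem kill (hm : Med F U r) (w a : ℕ) (hw : 1 ≤ w) (L : Finset (Finset (Lit n)))
    (hs : Safe F r ρ) (hn : U + w + a + r ≤ nf ρ)
    (hL : (L.card : ℝ) * (1 - w / (2 * n)) ^ a < 1) :
    ∃ ρ', PExt ρ ρ' ∧ Safe F r ρ' ∧ U + w ≤ nf ρ' ∧ alive L w ρ' = ∅ := by
  have hle := nf_le ρ
  have hwn : w ≤ n := by omega
  have hn0 : (0 : ℝ) < n := by exact_mod_cast (by omega : 0 < n)
  have hc0 : (0 : ℝ) ≤ 1 - w / (2 * n) := by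
    have h1 : (w : ℝ) ≤ n := by exact_mod_cast hwn
    have h2 : (w : ℝ) / (2 * n) ≤ 1 := by
      rw [div_le_one (by positivity)]
      linarith
    linarith
  refine kil_aux hm w hw L _ rfl hc0 (nf ρ) ρ a 0 rfl hs (inv_zero F r ρ) (by omega) ?_
  have h5 : ((alive L w ρ).card : ℝ) ≤ L.card := by
    exact_mod_cast Finset.card_le_card (Finset.filter_subset _ _)
  exact lt_of_le_of_lt (mul_le_mul_of_nonneg_right h5 (pow_nonneg hc0 a)) hL

end Pool.Agent.KS
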