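import Pool.Agent.Lib.MP_f017c9_lc_BT.Cnt
import Pool.Agent.Lib.MP_f017c9_lc_BT.Bas

/-!
# Random k-SAT: backtracking search, expansion holds with high probability
-/

namespace Pool.Agent.KS

open Finset

variable {n k M : ℕ}

open Classical in
/-- the literals which are false or have their variable in `W` -/
private noncomputable def mdpA (ρ : PA n) (W : Finset (Fin n)) : Finset (Lit n) :=
  univ.filter fun l => ρ l.1 = some (!l.2) ∨ l.1 ∈ W

private theorem mdp_cardA (ρ : PA n) (W : Finset (Fin n)) :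
    (mdpA ρ W).card ≤ (n - nf ρ) + 2 * W.card := by
  classical
  have h1 : mdpA ρ W ⊆ (univ.filter fun l : Lit n => ρ l.1 = some (!l.2)) ∪
      W ×ˢ (univ : Finset Bool) := by
    intro l hl
    unfold mdpA at hl
    rw [mem_filter] at hl
    rw [mem_union, mem_filter, mem_product]
    rcases hl.2 with h | h
    · exact Or.inl ⟨mem_univ _, h⟩
    · exact Or.inr ⟨h, mem_univ _⟩
  refine (card_le_card h1).trans ((card_union_le _ _).trans (add_le_add ?_ ?_))
  · have h2 : (univ.filter fun l : Lit n => ρ l.1 = some (!l.2)).card ≤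
        (univ.filter fun x : Fin n => ¬ ρ x = none).card := by
      refine card_le_card_of_injOn (fun l => l.1) ?_ ?_
      · intro l hl
        have hl' := (mem_filter.1 (mem_coe.1 hl)).2
        refine mem_coe.2 (mem_filter.2 ⟨mem_univ _, ?_⟩)
        intro h
        rw [h] at hl'
        exact absurd hl' (by simp)
      · rintro ⟨x, b⟩ hl ⟨y, c⟩ hl' he
        have h3 := (mem_filter.1 (mem_coe.1 hl)).2
        have h4 := (mem_filter.1 (mem_coe.1 hl')).2
        dsimp only at he h3 h4
        subst he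
        rw [h3] at h4
        have h5 : (!b) = (!c) := Option.some.inj h4
        have h6 : b = c := by
          cases b <;> cases c <;> simp_all
        rw [h6]
    refine h2.trans ?_
    have h7 := card_filter_add_card_filter_not (s := (univ : Finset (Fin n)))
      (fun x : Fin n => ρ x = none)
    rw [card_univ, Fintype.card_fin] at h7
    unfold nf
    omega
  · rw [card_product, card_univ, Fintype.card_bool, mul_comm]

private theorem mdp_sub {U r : ℕ} {F : Formula n k M} (h : ¬ Med F U r) :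
    ∃ ρ : PA n, ∃ W : Finset (Fin n), U ≤ nf ρ ∧ W.card ≤ 4 * r ∧
      ∃ C : Finset (Fin M), r < C.card ∧ ∀ j ∈ C, lits (F j) ⊆ mdpA ρ W := by
  classical
  unfold Med at h
  push Not at h
  obtain ⟨ρ, hρ, C, hC1, hC2, hC3, hC4⟩ := h
  refine ⟨ρ, fv F ρ C, hρ, by omega, C, hC1, ?_⟩
  intro j hj l hl
  unfold lits at hl
  rw [mem_image] at hl
  obtain ⟨i, -, rfl⟩ := hl
  unfold mdpA
  rw [mem_filter]
  refine ⟨mem_univ _, ?_⟩
  have h1 := hC3 j hj i
  rcases h2 : ρ ((F j).1 i) with _ | b
  · right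
    unfold fv
    rw [mem_filter]
    exact ⟨mem_univ _, h2, j, hj, i, rfl⟩
  · left
    rw [h2] at h1
    have h3 : b ≠ (F j).2 i := fun h => h1 (by rw [h])
    dsimp only
    congr 1
    cases b <;> cases h4 : (F j).2 i <;> simp_all

open Classical in
theorem med_prob (U r : ℕ) (z : ℝ) (hz : 1 ≤ z) (hkn : k < n)
    (hp : ((n + 8 * r - U : ℕ) : ℝ) ^ k * z * M ≤ n * ((2 * (n - k) : ℕ) : ℝ) ^ k) :
    (#{F : Formula n k M | ¬ Med F U r} : ℝ) ≤
      6 ^ n * (Real.exp n / z ^ r) * Fintype.card (Formula n k M) := by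
  classical
  rcases lt_or_ge n U with hU | hU
  · have h1 : ∀ F : Formula n k M, Med F U r := fun F ρ hρ =>
      absurd (hρ.trans (nf_le ρ)) (not_le.2 hU)
    have h2 : (univ.filter fun F : Formula n k M => ¬ Med F U r) = ∅ := by
      rw [filter_eq_empty_iff]
      intro F _ hF
      exact hF (h1 F)
    have h3 : (0 : ℝ) < z := by linarith
    rw [h2, card_empty, Nat.cast_zero]
    positivity
  have hz0 : (0 : ℝ) < z := by linarith
  set K : ℕ := Fintype.card (Clause n k) with hKd
  have hKge : (2 * (n - k)) ^ k ≤ K := card_clause_ge n k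
  have hKpos : 0 < K := lt_of_lt_of_le (pow_pos (by omega) k) hKge
  have hKR : (0 : ℝ) < K := by exact_mod_cast hKpos
  set a : ℕ := n + 8 * r - U with had
  have hcard : (Fintype.card (Formula n k M) : ℝ) = (K : ℝ) ^ M := by
    rw [Fintype.card_fun, Fintype.card_fin]
    push_cast
    rfl
  set p : ℝ := (a : ℝ) ^ k / K with hpd
  have hp0 : 0 ≤ p := by positivity
  -- one pair, one set of clauses
  have key1 : ∀ (ρ : PA n) (W : Finset (Fin n)), U ≤ nf ρ → W.card ≤ 4 * r →
      ∀ C : Finset (Fin M),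
        ((univ.filter fun F : Formula n k M => ∀ j ∈ C, lits (F j) ⊆ mdpA ρ W).card : ℝ) ≤
          p ^ C.card * (K : ℝ) ^ M := by
    intro ρ W hρ hW C
    have hA : (mdpA ρ W).card ≤ a := by
      have h1 := mdp_cardA ρ W
      omega
    have h2 := card_forall (n := n) (k := k) (fun c : Clause n k => lits c ⊆ mdpA ρ W) C
    have h3 : (univ.filter fun F : Formula n k M => ∀ j ∈ C, lits (F j) ⊆ mdpA ρ W).card =
        (univ.filter fun c : Clause n k => lits c ⊆ mdpA ρ W).card ^ C.card *
          K ^ (M - C.card) := by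
      convert h2
    have h4 : (univ.filter fun c : Clause n k => lits c ⊆ mdpA ρ W).card ≤ a ^ k := by
      refine le_trans ?_ (Nat.pow_le_pow_left hA k)
      have h5 := card_lits_subset (k := k) (mdpA ρ W)
      convert h5
    have hCM : C.card ≤ M := by
      have := card_le_univ C
      rwa [Fintype.card_fin] at this
    rw [h3]
    push_cast
    have h6 : p ^ C.card * (K : ℝ) ^ M = ((a : ℝ) ^ k) ^ C.card * (K : ℝ) ^ (M - C.card) := by
      have h7 : (K : ℝ) ^ M = (K : ℝ) ^ C.card * (K : ℝ) ^ (M - C.card) := by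
        rw [← pow_add]
        congr 1
        omega
      rw [hpd, div_pow, h7]
      field_simp
    rw [h6]
    refine mul_le_mul_of_nonneg_right ?_ (by positivity)
    refine pow_le_pow_left₀ (Nat.cast_nonneg _) ?_ _
    exact_mod_cast h4
  -- one pair
  have hexp : (1 + p * z) ^ M ≤ Real.exp n := by
    have h1 : 1 + p * z ≤ Real.exp (p * z) := by
      have := Real.add_one_le_exp (p * z)
      linarith
    have h2 : (1 + p * z) ^ M ≤ Real.exp (p * z) ^ M :=
      pow_le_pow_left₀ (by positivity) h1 M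
    refine h2.trans ?_
    rw [← Real.exp_nat_mul]
    refine Real.exp_le_exp.2 ?_
    have h3 : (a : ℝ) ^ k * z * M ≤ n * (K : ℝ) := by
      refine hp.trans ?_
      refine mul_le_mul_of_nonneg_left ?_ (Nat.cast_nonneg _)
      exact_mod_cast hKge
    have h4 : (M : ℝ) * (p * z) = (a : ℝ) ^ k * z * M / K := by
      rw [hpd]
      ring
    rw [h4, div_le_iff₀ hKR]
    exact h3
  have key2 : ∀ (ρ : PA n) (W : Finset (Fin n)), U ≤ nf ρ → W.card ≤ 4 * r →
      ∑ C : Finset (Fin M) with r < C.card,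
        ((univ.filter fun F : Formula n k M => ∀ j ∈ C, lits (F j) ⊆ mdpA ρ W).card : ℝ) ≤
          Real.exp n / z ^ r * (K : ℝ) ^ M := by
    intro ρ W hρ hW
    refine (sum_le_sum fun C _ => key1 ρ W hρ hW C).trans ?_
    rw [← sum_mul]
    refine mul_le_mul_of_nonneg_right ?_ (by positivity)
    refine (sum_pow_card M r p z hp0 hz).trans ?_
    exact div_le_div_of_nonneg_right hexp (by positivity)
  -- all pairs
  let Q : Finset (PA n × Finset (Fin n)) :=
    univ.filter fun q => U ≤ nf q.1 ∧ q.2.card ≤ 4 * r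
  have hsub : (univ.filter fun F : Formula n k M => ¬ Med F U r) ⊆
      Q.biUnion fun q => (univ.filter fun C : Finset (Fin M) => r < C.card).biUnion fun C =>
        univ.filter fun F : Formula n k M => ∀ j ∈ C, lits (F j) ⊆ mdpA q.1 q.2 := by
    intro F hF
    obtain ⟨ρ, W, hρ, hW, C, hC, h⟩ := mdp_sub (mem_filter.1 hF).2
    rw [mem_biUnion]
    refine ⟨(ρ, W), mem_filter.2 ⟨mem_univ _, hρ, hW⟩, ?_⟩
    rw [mem_biUnion]
    exact ⟨C, mem_filter.2 ⟨mem_univ _, hC⟩, mem_filter.2 ⟨mem_univ _, h⟩⟩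
  have h1 : (univ.filter fun F : Formula n k M => ¬ Med F U r).card ≤
      ∑ q ∈ Q, ∑ C : Finset (Fin M) with r < C.card,
        (univ.filter fun F : Formula n k M => ∀ j ∈ C, lits (F j) ⊆ mdpA q.1 q.2).card := by
    refine (card_le_card hsub).trans (card_biUnion_le.trans ?_)
    exact sum_le_sum fun q _ => card_biUnion_le
  have h2 : ((univ.filter fun F : Formula n k M => ¬ Med F U r).card : ℝ) ≤
      ∑ q ∈ Q, ∑ C : Finset (Fin M) with r < C.card,
        ((univ.filter fun F : Formula n k M => ∀ j ∈ C, lits (F j) ⊆ mdpA q.1 q.2).card : ℝ) := by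
    have h3 : ((univ.filter fun F : Formula n k M => ¬ Med F U r).card : ℝ) ≤
        ((∑ q ∈ Q, ∑ C : Finset (Fin M) with r < C.card,
          (univ.filter fun F : Formula n k M =>
            ∀ j ∈ C, lits (F j) ⊆ mdpA q.1 q.2).card : ℕ) : ℝ) := by
      exact_mod_cast h1
    refine h3.trans (le_of_eq ?_)
    push_cast
    rfl
  have hQ : (Q.card : ℝ) ≤ 6 ^ n := by
    have h3 : Q.card ≤ Fintype.card (PA n × Finset (Fin n)) := card_le_univ _
    have h4 : Fintype.card (PA n × Finset (Fin n)) = 6 ^ n := by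
      rw [Fintype.card_prod, Fintype.card_fun, Fintype.card_finset, Fintype.card_fin,
        Fintype.card_option, Fintype.card_bool, ← Nat.mul_pow]
    rw [h4] at h3
    exact_mod_cast h3
  rw [hcard]
  refine (le_of_eq ?_).trans (h2.trans ((sum_le_card_nsmul Q _ (Real.exp n / z ^ r * (K : ℝ) ^ M)
    fun q hq => key2 q.1 q.2 (mem_filter.1 hq).2.1 (mem_filter.1 hq).2.2).trans ?_))
  · congr 2
  · rw [nsmul_eq_mul, mul_assoc]
    exact mul_le_mul_of_nonneg_right hQ (by positivity)

end Pool.Agent.KS
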