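import Pool.Agent.Lib.MP_f017c9_lc.Numeric

/-!
# Random k-SAT: backtracking search, the numerical facts
-/

namespace Pool.Agent.KS

namespace Nmb

lemma exp_small {η : ℝ} (h0 : 0 < η) (h1 : η ≤ 1 / 177) :
    Real.exp (η / 5) ≤ 1 + 0.2003 * η := by
  have h2 := Real.abs_exp_sub_one_sub_id_le (x := η / 5) (by
    rw [abs_of_nonneg (by positivity)]
    linarith)
  have h3 := (abs_le.1 h2).2
  have h4 : (η / 5) ^ 2 ≤ 0.0003 * η := by nlinarith
  linarith

/-- the shrinking factor -/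
lemma shrink {η x n k : ℝ} (h0 : 0 < η) (h1 : η ≤ 1 / 177) (hx : x = η * n) (hn : 0 ≤ n)
    (hk : k + 3 ≤ 0.009 * x) {y : ℝ} (hy0 : 0 ≤ y) (hy : y ≤ n - 0.21 * x + 1) :
    y * Real.exp (η / 5) ≤ n - k := by
  have h2 := exp_small h0 h1
  have hx0 : 0 ≤ x := by rw [hx]; positivity
  calc y * Real.exp (η / 5) ≤ y * (1 + 0.2003 * η) := mul_le_mul_of_nonneg_left h2 hy0
    _ ≤ (n - 0.21 * x + 1) * (1 + 0.2003 * η) :=
        mul_le_mul_of_nonneg_right hy (by positivity)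
    _ = n - 0.21 * x + 1 + 0.2003 * (η * n) - 0.2003 * 0.21 * (η * x) + 0.2003 * η := by ring
    _ ≤ n - k := by
        rw [← hx]
        have h3 : 0 ≤ η * x := by positivity
        linarith

end Nmb

/-- the choice of the parameters -/
theorem numBT (ε : ℝ) (hε : 0 < ε) (hε1 : ε ≤ 1) (k : ℕ)
    (hk : 10 ^ 8 * Real.log (16 / ε) ^ 2 ≤ ε ^ 2 * k) :
    ∃ n₀ : ℕ, ∀ n ≥ n₀, k < n ∧ ∃ U w a r : ℕ, ∃ z : ℝ, 1 ≤ w ∧ 1 ≤ r ∧ 1 ≤ z ∧
      ((r + (U + w + a + r) : ℕ) : ℝ) ≤ ε / (64 * Real.log (16 / ε)) * n ∧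
      Real.exp (ε ^ 2 * n / (10 ^ 6 * Real.log (16 / ε) ^ 2)) * (1 - w / (2 * n)) ^ a < 1 ∧
      (∀ M : ℕ, (M : ℝ) ≤ 2 ^ k * n →
        ((n + 8 * r - U : ℕ) : ℝ) ^ k * z * M ≤ n * ((2 * (n - k) : ℕ) : ℝ) ^ k) ∧
      (6 : ℝ) ^ n * (Real.exp n / z ^ r) ≤ Real.exp (-(3 / 10 * n)) := by
  have hL := Numeric_u_lb hε hε1
  set L := Real.log (16 / ε) with hLdef
  have hL0 : 0 < L := by linarith
  obtain ⟨η, hη⟩ : ∃ η, η = ε / (64 * L) := ⟨_, rfl⟩
  have hη0 : 0 < η := by rw [hη]; positivity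
  have hη1 : η ≤ 1 / 177 := by
    rw [hη, div_le_div_iff₀ (by positivity) (by norm_num)]
    linarith
  have hηk : 24414 ≤ η ^ 2 * k := by
    have e1 : η ^ 2 * k = ε ^ 2 * k / (4096 * L ^ 2) := by
      rw [hη]
      field_simp
      ring
    rw [e1, le_div_iff₀ (by positivity)]
    have h2 : 0 < L ^ 2 := by positivity
    linarith
  obtain ⟨n₀, hn₀⟩ := exists_nat_gt ((400 + (k + 3) / 0.009) / η)
  refine ⟨n₀, fun n hn => ?_⟩
  have hnR : (400 + (k + 3) / 0.009) / η < (n : ℝ) := hn₀.trans_le (by exact_mod_cast hn)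
  rw [div_lt_iff₀ hη0] at hnR
  obtain ⟨x, hx⟩ : ∃ x, x = η * (n : ℝ) := ⟨_, rfl⟩
  have hxn : 400 + (k + 3) / 0.009 < x := by
    rw [hx, mul_comm]
    exact hnR
  have hk0 : (0 : ℝ) ≤ k := Nat.cast_nonneg k
  have hx400 : 400 ≤ x := by
    have : 0 ≤ ((k : ℝ) + 3) / 0.009 := by positivity
    linarith
  have hxk : (k : ℝ) + 3 ≤ 0.009 * x := by
    have h1 : ((k : ℝ) + 3) / 0.009 ≤ x := by linarith
    rw [div_le_iff₀ (by norm_num)] at h1
    linarith
  have hn0 : (0 : ℝ) < n := by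
    by_contra h
    push Not at h
    have : x ≤ 0 := by rw [hx]; exact mul_nonpos_of_nonneg_of_nonpos hη0.le h
    linarith
  have hxn1 : 177 * x ≤ n := by
    rw [hx]
    nlinarith
  have hkn : (k : ℝ) < n := by linarith
  have hknN : k < n := by exact_mod_cast hkn
  refine ⟨hknN, ⌊x / 4⌋₊, ⌊x / 4⌋₊, ⌊x / 4⌋₊, ⌊x / 200⌋₊, Real.exp (η * k / 5), ?_⟩
  have hwu : ((⌊x / 4⌋₊ : ℕ) : ℝ) ≤ x / 4 := Nat.floor_le (by positivity)
  have hwl : x / 4 - 1 < ((⌊x / 4⌋₊ : ℕ) : ℝ) := Nat.sub_one_lt_floor _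
  have hru : ((⌊x / 200⌋₊ : ℕ) : ℝ) ≤ x / 200 := Nat.floor_le (by positivity)
  have hrl : x / 200 - 1 < ((⌊x / 200⌋₊ : ℕ) : ℝ) := Nat.sub_one_lt_floor _
  generalize ⌊x / 4⌋₊ = w at hwu hwl ⊢
  generalize ⌊x / 200⌋₊ = r at hru hrl ⊢
  have hw1 : 1 ≤ w := by
    have : (0 : ℝ) < w := by linarith
    have h2 : 0 < w := by exact_mod_cast this
    exact h2
  have hr1 : 1 ≤ r := by
    have : (0 : ℝ) < r := by linarith
    have h2 : 0 < r := by exact_mod_cast this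
    exact h2
  refine ⟨hw1, hr1, Real.one_le_exp (by positivity), ?_, ?_, ?_, ?_⟩
  · push_cast
    rw [← hη, ← hx]
    linarith
  · have hb0 : 0 ≤ 1 - (w : ℝ) / (2 * n) := by
      rw [sub_nonneg, div_le_iff₀ (by positivity)]
      linarith
    have hb1 : 1 - (w : ℝ) / (2 * n) ≤ Real.exp (-((w : ℝ) / (2 * n))) := by
      have := Real.add_one_le_exp (-((w : ℝ) / (2 * n)))
      linarith
    have hb2 : (1 - (w : ℝ) / (2 * n)) ^ w ≤ Real.exp (-(w * ((w : ℝ) / (2 * n)))) := by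
      calc (1 - (w : ℝ) / (2 * n)) ^ w ≤ Real.exp (-((w : ℝ) / (2 * n))) ^ w :=
            pow_le_pow_left₀ hb0 hb1 w
        _ = Real.exp (w * (-((w : ℝ) / (2 * n)))) := (Real.exp_nat_mul _ _).symm
        _ = _ := by rw [mul_neg]
    have hw5 : x / 5 ≤ (w : ℝ) := by linarith
    have hb3 : η ^ 2 * n / 50 ≤ w * ((w : ℝ) / (2 * n)) := by
      have e1 : (w : ℝ) * ((w : ℝ) / (2 * n)) = w ^ 2 / (2 * n) := by ring
      rw [e1, le_div_iff₀ (by positivity)]
      have e2 : η ^ 2 * n / 50 * (2 * n) = (x / 5) ^ 2 := by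
        rw [hx]
        ring
      rw [e2]
      exact pow_le_pow_left₀ (by positivity) hw5 2
    have hb4 : ε ^ 2 * n / (10 ^ 6 * L ^ 2) < η ^ 2 * n / 50 := by
      have e1 : η ^ 2 * n / 50 = ε ^ 2 * n / (204800 * L ^ 2) := by
        rw [hη]
        field_simp
        ring
      rw [e1]
      apply div_lt_div_of_pos_left (by positivity) (by positivity)
      have h2 : 0 < L ^ 2 := by positivity
      linarith
    calc Real.exp (ε ^ 2 * n / (10 ^ 6 * L ^ 2)) * (1 - w / (2 * n)) ^ w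
        ≤ Real.exp (ε ^ 2 * n / (10 ^ 6 * L ^ 2)) * Real.exp (-(w * ((w : ℝ) / (2 * n)))) :=
          mul_le_mul_of_nonneg_left hb2 (Real.exp_pos _).le
      _ = Real.exp (ε ^ 2 * n / (10 ^ 6 * L ^ 2) + -(w * ((w : ℝ) / (2 * n)))) :=
          (Real.exp_add _ _).symm
      _ < 1 := by
          rw [Real.exp_lt_one_iff]
          linarith
  · intro M hM
    have hwn : w ≤ n + 8 * r := by
      have h1 : (w : ℝ) ≤ n := by linarith
      have h2 : w ≤ n := by exact_mod_cast h1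
      omega
    have hc1 : ((n + 8 * r - w : ℕ) : ℝ) = n + 8 * r - w := by
      rw [Nat.cast_sub hwn]
      push_cast
      ring
    have hc2 : ((2 * (n - k) : ℕ) : ℝ) = 2 * (n - k) := by
      rw [Nat.cast_mul, Nat.cast_sub hknN.le]
      norm_num
    rw [hc1, hc2]
    have hy0 : 0 ≤ (n : ℝ) + 8 * r - w := by linarith
    have hy1 : (n : ℝ) + 8 * r - w ≤ n - 0.21 * x + 1 := by linarith
    have hs := Nmb.shrink hη0 hη1 hx hn0.le hxk hy0 hy1
    have hz : Real.exp (η * k / 5) = Real.exp (η / 5) ^ k := by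
      rw [← Real.exp_nat_mul]
      congr 1
      ring
    rw [hz]
    have hyp : 0 ≤ ((n : ℝ) + 8 * r - w) ^ k * Real.exp (η / 5) ^ k :=
      mul_nonneg (pow_nonneg hy0 k) (pow_nonneg (Real.exp_pos _).le k)
    calc ((n : ℝ) + 8 * r - w) ^ k * Real.exp (η / 5) ^ k * M
        ≤ ((n : ℝ) + 8 * r - w) ^ k * Real.exp (η / 5) ^ k * (2 ^ k * n) :=
          mul_le_mul_of_nonneg_left hM hyp
      _ = n * (2 ^ k * (((n : ℝ) + 8 * r - w) * Real.exp (η / 5)) ^ k) := by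
          rw [mul_pow]
          ring
      _ ≤ n * (2 ^ k * ((n : ℝ) - k) ^ k) := by
          apply mul_le_mul_of_nonneg_left _ hn0.le
          apply mul_le_mul_of_nonneg_left _ (by positivity)
          exact pow_le_pow_left₀ (mul_nonneg hy0 (Real.exp_pos _).le) hs k
      _ = n * (2 * ((n : ℝ) - k)) ^ k := by rw [mul_pow]
  · have hz : Real.exp (η * k / 5) ^ r = Real.exp (η * k / 5 * r) := by
      rw [← Real.exp_nat_mul]
      congr 1
      ring
    have h6 : (6 : ℝ) ^ n ≤ Real.exp (2 * n) := by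
      have h1 := Real.exp_one_gt_d9
      have h2 : (6 : ℝ) ≤ Real.exp 2 := by
        have e1 : Real.exp 2 = Real.exp 1 * Real.exp 1 := by
          rw [← Real.exp_add]
          norm_num
        rw [e1]
        nlinarith
      calc (6 : ℝ) ^ n ≤ Real.exp 2 ^ n := pow_le_pow_left₀ (by norm_num) h2 n
        _ = Real.exp (2 * n) := by
            rw [← Real.exp_nat_mul]
            congr 1
            ring
    have hr4 : x / 400 ≤ (r : ℝ) := by linarith
    have h12 : 12 * (n : ℝ) ≤ η * k / 5 * r := by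
      calc 12 * (n : ℝ) ≤ η ^ 2 * k * n / 2000 := by
            have := mul_le_mul_of_nonneg_right hηk hn0.le
            linarith
        _ = η * k / 5 * (x / 400) := by
            rw [hx]
            ring
        _ ≤ η * k / 5 * r := mul_le_mul_of_nonneg_left hr4 (by positivity)
    rw [hz, ← Real.exp_sub]
    calc (6 : ℝ) ^ n * Real.exp (n - η * k / 5 * r)
        ≤ Real.exp (2 * n) * Real.exp (n - η * k / 5 * r) :=
          mul_le_mul_of_nonneg_right h6 (Real.exp_pos _).le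
      _ = Real.exp (2 * n + (n - η * k / 5 * r)) := (Real.exp_add _ _).symm
      _ ≤ Real.exp (-(3 / 10 * n)) := by
          apply Real.exp_le_exp.mpr
          linarith

end Pool.Agent.KS
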