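import Pool.Agent.Lib.MP_f017c9_lc.Main

/-!
# Random k-SAT: algorithms with an output near a satisfying assignment are sensitive to the signs
-/

namespace Pool.Agent.KS

open Finset

open Classical in
theorem near_sens (ε q : ℝ) (hε : 0 < ε) (hε1 : ε ≤ 1) (hq : 0 < q) :
    ∃ n₀ : ℕ, ∀ n ≥ n₀, ∀ k ≤ n, 16 * Real.log (16 / ε) ^ 2 ≤ ε * k →
      ∀ M : ℕ, ε * 2 ^ k * n ≤ M → ∀ (R : Type) [Fintype R] [Nonempty R]
        (A : R → Formula n k M → Asg n),
        q ≤ (#{x : R × Formula n k M | ∃ σ : Asg n, (∀ j, ¬ Violated σ (x.2 j)) ∧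
          (hammingDist (A x.1 x.2) σ : ℝ) ≤ ε / (64 * Real.log (16 / ε)) * n} : ℝ) /
            Fintype.card (R × Formula n k M) →
          ε ^ 4 * q ^ 3 * n ^ 2 / (2 * 10 ^ 5) ≤ sensitivity A := by
  by_cases hq1 : q ≤ 1
  swap
  · refine ⟨0, fun n _ k hk _ M _ R _ _ A hA => ?_⟩
    exfalso
    apply hq1
    refine hA.trans ?_
    refine div_le_one_of_le₀ ?_ (Nat.cast_nonneg _)
    exact_mod_cast card_le_univ _
  obtain ⟨n₀, hn₀⟩ := numeric ε q hε hε1 hq hq1
  obtain ⟨hδ0, hδ4, hδB⟩ := delta_facts ε hε hε1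
  refine ⟨max n₀ 1, fun n hn k hk hkε M hM R _ _ A hA => ?_⟩
  have hn0 : n₀ ≤ n := (le_max_left _ _).trans hn
  have hn1 : 1 ≤ n := (le_max_right _ _).trans hn
  by_contra hcon
  push Not at hcon
  have hη : ε / (64 * Real.log (16 / ε)) = ε / (16 * Real.log (16 / ε)) / 4 := by
    rw [div_div]
    congr 1
    ring
  rw [hη] at hA
  set δ : ℝ := ε / (16 * Real.log (16 / ε)) with hδ
  have hnR : (1 : ℝ) ≤ n := by exact_mod_cast hn1
  have hs0 : 0 ≤ sensitivity A := by
    unfold sensitivity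
    positivity
  set s := sensitivity A with hs
  have hD : 0 < δ * n := by positivity
  -- the nearby satisfying assignment
  let N : R × Formula n k M → Prop := fun x => ∃ σ : Asg n, (∀ j, ¬ Violated σ (x.2 j)) ∧
          (hammingDist (A x.1 x.2) σ : ℝ) ≤ δ / 4 * n
  have hchoice : ∃ B : R → Formula n k M → Asg n, ∀ x : R × Formula n k M, N x →
      (∀ j, ¬ Violated (B x.1 x.2) (x.2 j)) ∧
        (hammingDist (A x.1 x.2) (B x.1 x.2) : ℝ) ≤ δ / 4 * n := by
    refine ⟨fun r F => if h : N (r, F) then Classical.choose h else A r F, fun x hx => ?_⟩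
    have h1 : N (x.1, x.2) := hx
    have h2 := Classical.choose_spec h1
    simp only [dif_pos h1]
    exact h2
  obtain ⟨B, hB⟩ := hchoice
  have hE0 : (0 : ℝ) ≤ M / 2 ^ k / 20 := by positivity
  have hBv : ∀ x : R × Formula n k M, N x →
      (numViolated (B x.1 x.2) x.2 : ℝ) ≤ M / 2 ^ k / 20 := by
    intro x hx
    have h1 : numViolated (B x.1 x.2) x.2 = 0 := by
      unfold numViolated
      rw [card_eq_zero, filter_eq_empty_iff]
      exact fun j _ => (hB x hx).1 j
    rw [h1, Nat.cast_zero]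
    exact hE0
  -- the number of labels
  obtain ⟨L, hL⟩ : ∃ L : ℕ, L = ⌈2 * (2 * s) / (q ^ 2 * (δ * n))⌉₊ := ⟨_, rfl⟩
  have hL1 : 2 * (2 * s) / (q ^ 2 * (δ * n)) ≤ L + 1 := by
    have := Nat.le_ceil (2 * (2 * s) / (q ^ 2 * (δ * n)))
    rw [← hL] at this
    linarith
  have hL2 : ((L : ℝ) + 1) ≤ 2 * (2 * s) / (q ^ 2 * (δ * n)) + 2 := by
    have := Nat.ceil_lt_add_one (a := 2 * (2 * s) / (q ^ 2 * (δ * n))) (by positivity)
    rw [← hL] at this
    linarith
  -- m
  obtain ⟨m, hmdef⟩ : ∃ m : ℕ, m = ⌈6 / ε⌉₊ := ⟨_, rfl⟩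
  have hm1 : 6 / ε ≤ m := by rw [hmdef]; exact Nat.le_ceil _
  have hm2 : (m : ℝ) ≤ 7 / ε := by
    have h1 := Nat.ceil_lt_add_one (a := 6 / ε) (by positivity)
    rw [← hmdef] at h1
    have h2 : 7 / ε = 6 / ε + 1 / ε := by ring
    have h3 : 1 ≤ 1 / ε := by
      rw [le_div_iff₀ hε]; linarith
    linarith
  have hm0 : 1 ≤ m := by
    have : (0 : ℝ) < m := lt_of_lt_of_le (by positivity) hm1
    exact_mod_cast this
  -- K
  obtain ⟨a, ha1, ha2⟩ := exists_two_pow (m * (2 * (L + 1))) (Nat.mul_pos hm0 (by omega))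
  have hE : ε * n ≤ M / 2 ^ k := by
    rw [le_div_iff₀ (by positivity)]
    linarith
  -- the good steps
  let g : R × Formula n k M → R × Formula n k M → Prop := fun x x' =>
    N x ∧ N x' ∧ (hammingDist (A x.1 x.2) (A x'.1 x'.2) : ℝ) ≤ δ / 2 * n
  have hgs : ∀ x x', g x x' → g x' x := by
    intro x x' h
    refine ⟨h.2.1, h.1, ?_⟩
    rw [hammingDist_comm]
    exact h.2.2
  have : Nonempty (Fin k ↪ Fin n) := ⟨Fin.castLEEmb hk⟩
  have : Nonempty (Formula n k M) := inferInstance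
  have hX0 : (0 : ℝ) < Fintype.card (R × Formula n k M) := by
    exact_mod_cast Fintype.card_pos
  have hY0 : (0 : ℝ) < Fintype.card (Fin M → Fin (L + 1) × Pat k) := by
    exact_mod_cast Fintype.card_pos
  have hpath := path_pow (X := R × Formula n k M) (Y := Fin M → Fin (L + 1) × Pat k)
    moveR revR moveR_revR revR_revR g hgs a
  -- lower bound for the probability of a good step
  have hstep : q ^ 2 / 2 ≤ (#{z : (R × Formula n k M) × (Fin M → Fin (L + 1) × Pat k) |
      g z.1 (moveR z.1 z.2)} : ℝ) / (Fintype.card (R × Formula n k M) *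
        Fintype.card (Fin M → Fin (L + 1) × Pat k)) := by
    have hp := pair_pos (L := L) hk (R := R) (M := M) N
    have hd := pair_dist (L := L) hk (R := R) A
    rw [← hs] at hd
    have hq2 : q ^ 2 ≤ (#{z : (R × Formula n k M) × (Fin M → Fin (L + 1) × Pat k) |
        N z.1 ∧ N (moveR z.1 z.2)} : ℝ) / (Fintype.card (R × Formula n k M) *
        Fintype.card (Fin M → Fin (L + 1) × Pat k)) := by
      refine le_trans ?_ hp
      exact pow_le_pow_left₀ hq.le hA 2
    set S1 : Finset ((R × Formula n k M) × (Fin M → Fin (L + 1) × Pat k)) :=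
      univ.filter fun z => N z.1 ∧ N (moveR z.1 z.2) with hS1
    set S2 : Finset ((R × Formula n k M) × (Fin M → Fin (L + 1) × Pat k)) :=
      univ.filter fun z => δ / 2 * n <
        (hammingDist (A z.1.1 z.1.2) (A z.1.1 (move z.1.2 z.2)) : ℝ) with hS2
    have hsub : S1 ⊆ (univ.filter fun z : (R × Formula n k M) ×
        (Fin M → Fin (L + 1) × Pat k) => g z.1 (moveR z.1 z.2)) ∪ S2 := by
      intro z hz
      simp only [hS1, mem_filter, mem_univ, true_and] at hz
      simp only [mem_union, mem_filter, mem_univ, true_and, hS2]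
      by_cases h : (hammingDist (A z.1.1 z.1.2) (A z.1.1 (move z.1.2 z.2)) : ℝ) ≤ δ / 2 * n
      · left
        exact ⟨hz.1, hz.2, h⟩
      · right
        push Not at h
        exact h
    have hc1 : (S1.card : ℝ) ≤ (#{z : (R × Formula n k M) × (Fin M → Fin (L + 1) × Pat k) |
        g z.1 (moveR z.1 z.2)} : ℝ) + S2.card := by
      have := (card_le_card hsub).trans (card_union_le _ _)
      exact_mod_cast this
    -- Markov
    have hc2 : (S2.card : ℝ) * (δ / 2 * n) ≤
        ∑ z : (R × Formula n k M) × (Fin M → Fin (L + 1) × Pat k),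
          (hammingDist (A z.1.1 z.1.2) (A z.1.1 (move z.1.2 z.2)) : ℝ) := by
      calc (S2.card : ℝ) * (δ / 2 * n) = ∑ z ∈ S2, δ / 2 * n := by
            rw [sum_const, nsmul_eq_mul]
        _ ≤ ∑ z ∈ S2, (hammingDist (A z.1.1 z.1.2) (A z.1.1 (move z.1.2 z.2)) : ℝ) := by
            apply sum_le_sum
            intro z hz
            simp only [hS2, mem_filter, mem_univ, true_and] at hz
            exact hz.le
        _ ≤ _ := by
            apply sum_le_sum_of_subset_of_nonneg (subset_univ _)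
            intros
            positivity
    set c : ℝ := Fintype.card (R × Formula n k M) *
        Fintype.card (Fin M → Fin (L + 1) × Pat k) with hc
    have hcpos : 0 < c := mul_pos hX0 hY0
    have hD2 : 0 < δ / 2 * n := by positivity
    have hc3 : (S2.card : ℝ) / c ≤ q ^ 2 / 2 := by
      have e1 : (S2.card : ℝ) / c * (δ / 2 * n) ≤ s / (L + 1) := by
        refine le_trans ?_ hd
        rw [div_mul_eq_mul_div]
        exact div_le_div_of_nonneg_right hc2 hcpos.le
      have e2 : s / (L + 1) ≤ q ^ 2 / 2 * (δ / 2 * n) := by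
        rw [div_le_iff₀ (by positivity)]
        rw [div_le_iff₀ (by positivity)] at hL1
        nlinarith
      have e3 := e1.trans e2
      exact le_of_mul_le_mul_right e3 hD2
    have hc4 : (S1.card : ℝ) / c ≤ (#{z : (R × Formula n k M) × (Fin M → Fin (L + 1) × Pat k) |
        g z.1 (moveR z.1 z.2)} : ℝ) / c + (S2.card : ℝ) / c := by
      rw [← add_div]
      exact div_le_div_of_nonneg_right hc1 hcpos.le
    linarith
  -- a good step is a good step of the nearby assignments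
  have hgB : ∀ x x', g x x' → ((numViolated (B x.1 x.2) x.2 : ℝ) ≤ M / 2 ^ k / 20 ∧
      (numViolated (B x'.1 x'.2) x'.2 : ℝ) ≤ M / 2 ^ k / 20 ∧
        (hammingDist (B x.1 x.2) (B x'.1 x'.2) : ℝ) ≤ δ * n) := by
    intro x x' h
    refine ⟨hBv x h.1, hBv x' h.2.1, ?_⟩
    have e1 := hammingDist_triangle (B x.1 x.2) (A x.1 x.2) (B x'.1 x'.2)
    have e2 := hammingDist_triangle (A x.1 x.2) (A x'.1 x'.2) (B x'.1 x'.2)
    have e3 := (hB x h.1).2
    have e4 := (hB x' h.2.1).2
    have e5 := h.2.2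
    rw [hammingDist_comm] at e3
    have e1' : (hammingDist (B x.1 x.2) (B x'.1 x'.2) : ℝ) ≤
        hammingDist (B x.1 x.2) (A x.1 x.2) + hammingDist (A x.1 x.2) (B x'.1 x'.2) := by
      exact_mod_cast e1
    have e2' : (hammingDist (A x.1 x.2) (B x'.1 x'.2) : ℝ) ≤
        hammingDist (A x.1 x.2) (A x'.1 x'.2) + hammingDist (A x'.1 x'.2) (B x'.1 x'.2) := by
      exact_mod_cast e2
    linarith
  have hcards : (#{z : (R × Formula n k M) × (Fin (2 ^ a) → Fin M → Fin (L + 1) × Pat k) |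
        ∀ t < 2 ^ a, g (run moveR z.1 z.2 t) (run moveR z.1 z.2 (t + 1))} : ℝ) ≤
      (#{z : (R × Formula n k M) × (Fin (2 ^ a) → Fin M → Fin (L + 1) × Pat k) |
        ∀ t < 2 ^ a, ((numViolated (B (run moveR z.1 z.2 t).1 (run moveR z.1 z.2 t).2)
            (run moveR z.1 z.2 t).2 : ℝ) ≤ M / 2 ^ k / 20 ∧
          (numViolated (B (run moveR z.1 z.2 (t + 1)).1 (run moveR z.1 z.2 (t + 1)).2)
            (run moveR z.1 z.2 (t + 1)).2 : ℝ) ≤ M / 2 ^ k / 20 ∧
          (hammingDist (B (run moveR z.1 z.2 t).1 (run moveR z.1 z.2 t).2)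
            (B (run moveR z.1 z.2 (t + 1)).1 (run moveR z.1 z.2 (t + 1)).2) : ℝ) ≤
              δ * n)} : ℝ) := by
    have : (univ.filter fun z : (R × Formula n k M) ×
        (Fin (2 ^ a) → Fin M → Fin (L + 1) × Pat k) =>
        ∀ t < 2 ^ a, g (run moveR z.1 z.2 t) (run moveR z.1 z.2 (t + 1))) ⊆
        univ.filter fun z : (R × Formula n k M) ×
          (Fin (2 ^ a) → Fin M → Fin (L + 1) × Pat k) =>
        ∀ t < 2 ^ a, ((numViolated (B (run moveR z.1 z.2 t).1 (run moveR z.1 z.2 t).2)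
            (run moveR z.1 z.2 t).2 : ℝ) ≤ M / 2 ^ k / 20 ∧
          (numViolated (B (run moveR z.1 z.2 (t + 1)).1 (run moveR z.1 z.2 (t + 1)).2)
            (run moveR z.1 z.2 (t + 1)).2 : ℝ) ≤ M / 2 ^ k / 20 ∧
          (hammingDist (B (run moveR z.1 z.2 t).1 (run moveR z.1 z.2 t).2)
            (B (run moveR z.1 z.2 (t + 1)).1 (run moveR z.1 z.2 (t + 1)).2) : ℝ) ≤
              δ * n) := by
      intro z
      simp only [mem_filter, mem_univ, true_and]
      exact fun h t ht => hgB _ _ (h t ht)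
    exact_mod_cast card_le_card this
  -- upper bound
  have hupper := walk_bound (L := L) (K := 2 ^ a) (K' := 2 * (L + 1)) (m := m) (M := M) hk B δ
    (Real.exp (ε * n / 4)) hδ0.le (by linarith) (delta_pow ε hε hε1 k m hm2 hkε)
    (Nat.one_le_two_pow) rfl ha1 (by
      intro σ
      refine (ball_bound σ (2 * (δ * n)) (2 * δ) (by positivity) (by positivity)
        (by linarith)).trans ?_
      apply Real.exp_le_exp.mpr
      exact hδB n)
  have hs2 : 2 * s < ε ^ 4 * q ^ 3 * n ^ 2 / 10 ^ 5 := by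
    have e1 : ε ^ 4 * q ^ 3 * (n : ℝ) ^ 2 / 10 ^ 5 =
        2 * (ε ^ 4 * q ^ 3 * (n : ℝ) ^ 2 / (2 * 10 ^ 5)) := by ring
    rw [e1]
    linarith
  have hnum := hn₀ n hn0 m (2 ^ a) (M / 2 ^ k) (2 * s) hm1 hm2 hE hs2 (by linarith) (by
    have h1 : ((2 ^ a : ℕ) : ℝ) ≤ (2 * (m * (2 * (L + 1))) : ℕ) := by exact_mod_cast ha2
    refine h1.trans ?_
    push_cast
    have h2 : (0 : ℝ) ≤ m := Nat.cast_nonneg _
    nlinarith)
  have hcard : (Fintype.card ((R × Formula n k M) × (Fin (2 ^ a) → Fin M → Fin (L + 1) × Pat k)) :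
      ℝ) = Fintype.card (R × Formula n k M) *
        (Fintype.card (Fin M → Fin (L + 1) × Pat k) : ℝ) ^ (2 ^ a) := by
    rw [Fintype.card_prod, Fintype.card_fun (α := Fin (2 ^ a)), Fintype.card_fin]
    push_cast
    rfl
  rw [hcard] at hupper
  have h1 : (q ^ 2 / 2) ^ (2 ^ a) ≤ _ := (pow_le_pow_left₀ (by positivity) hstep (2 ^ a)).trans hpath
  have hden : (0 : ℝ) < Fintype.card (R × Formula n k M) *
        (Fintype.card (Fin M → Fin (L + 1) × Pat k) : ℝ) ^ (2 ^ a) := by positivity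
  rw [le_div_iff₀ hden] at h1
  have h2 := (h1.trans hcards).trans hupper
  rw [mul_comm] at h2
  have h3 := le_of_mul_le_mul_left h2 hden
  push_cast at hnum h3
  linarith

end Pool.Agent.KS
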