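import Pool.Agent.Lib.MP_f017c9_lc_BT.Pth
import Pool.Agent.Lib.MP_f017c9_lc_BT.Mdp
import Pool.Agent.Lib.MP_f017c9_lc_BT.Nmb
import Pool.Agent.Lib.MP_f017c9_lc_BT.Drk
import Pool.Agent.Lib.MP_f017c9_lc_BT.Cau
import Pool.Agent.Lib.MP_f017c9_lc_BT.Stb

/-!
# Random k-SAT: backtracking search with clause learning (assembly)
-/

namespace Pool.Agent.KS

open Finset

/-- the number of lines of the refutations -/
noncomputable def budget (ε : ℝ) (n : ℕ) : ℝ :=
  Real.exp (ε ^ 2 * n / (10 ^ 6 * Real.log (16 / ε) ^ 2))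

open Classical in
theorem bt_few (ε : ℝ) (hε : 0 < ε) (hε1 : ε ≤ 1) (k : ℕ)
    (hk : 10 ^ 8 * Real.log (16 / ε) ^ 2 ≤ ε ^ 2 * k) :
    ∃ n₀ : ℕ, ∀ n ≥ n₀, k < n ∧ ∀ M : ℕ,
      (#{F : Formula n k M | ∃ rule σ m, FindsAt F (budget ε n) rule σ m ∧
        ε / (64 * Real.log (16 / ε)) * n < (m : ℝ)} : ℝ) ≤
          Real.exp (-(3 / 10 * n)) * Fintype.card (Formula n k M) := by
  obtain ⟨n₀, hn₀⟩ := numBT ε hε hε1 k hk
  refine ⟨n₀, fun n hn => ?_⟩
  obtain ⟨hkn, U, w, a, r, z, hw, hr, hz, h1, h2, h3, h4⟩ := hn₀ n hn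
  refine ⟨hkn, fun M => ?_⟩
  have hsub1 : (univ.filter fun F : Formula n k M => ∃ rule σ m,
      FindsAt F (budget ε n) rule σ m ∧ ε / (64 * Real.log (16 / ε)) * n < (m : ℝ)) ⊆
      univ.filter fun F : Formula n k M => ¬ Med F U r := by
    intro F hF
    simp only [mem_filter, mem_univ, true_and] at hF ⊢
    obtain ⟨rule, σ, m, hf, hm⟩ := hF
    intro hmed
    have := finds_bound hmed hr w a hw (budget ε n) (by unfold budget; exact h2) rule σ m hf
    have h5 : (m : ℝ) ≤ ((r + (U + w + a + r) : ℕ) : ℝ) := by exact_mod_cast this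
    linarith
  have hsub2 : (univ.filter fun F : Formula n k M => ∃ rule σ m,
      FindsAt F (budget ε n) rule σ m ∧ ε / (64 * Real.log (16 / ε)) * n < (m : ℝ)) ⊆
      (univ : Finset (Asg n)).biUnion fun σ =>
        univ.filter fun F : Formula n k M => ∀ j, ¬ Violated σ (F j) := by
    intro F hF
    simp only [mem_filter, mem_univ, true_and, mem_biUnion] at hF ⊢
    obtain ⟨rule, σ, m, hf, -⟩ := hF
    exact ⟨σ, hf.2⟩
  rcases le_total (M : ℝ) (2 ^ k * n) with hM | hM
  · have h5 := med_prob U r z hz hkn (h3 M hM)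
    have h6 : (6 : ℝ) ^ n * (Real.exp n / z ^ r) * Fintype.card (Formula n k M) ≤
        Real.exp (-(3 / 10 * n)) * Fintype.card (Formula n k M) :=
      mul_le_mul_of_nonneg_right h4 (Nat.cast_nonneg _)
    have h7 : ((univ.filter fun F : Formula n k M => ∃ rule σ m,
      FindsAt F (budget ε n) rule σ m ∧ ε / (64 * Real.log (16 / ε)) * n < (m : ℝ)).card : ℝ) ≤
        ((univ.filter fun F : Formula n k M => ¬ Med F U r).card : ℝ) := by
      exact_mod_cast card_le_card hsub1
    exact h7.trans (h5.trans h6)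
  · have h7 : ((univ.filter fun F : Formula n k M => ∃ rule σ m,
      FindsAt F (budget ε n) rule σ m ∧ ε / (64 * Real.log (16 / ε)) * n < (m : ℝ)).card : ℝ) ≤
        ∑ σ : Asg n, ((univ.filter fun F : Formula n k M => ∀ j, ¬ Violated σ (F j)).card : ℝ) := by
      exact_mod_cast (card_le_card hsub2).trans card_biUnion_le
    refine h7.trans ?_
    refine (sum_le_sum fun σ _ => sat_count σ).trans ?_
    rw [sum_const, nsmul_eq_mul, card_univ, Fintype.card_fun, Fintype.card_bool, Fintype.card_fin,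
      ← mul_assoc]
    refine mul_le_mul_of_nonneg_right ?_ (Nat.cast_nonneg _)
    have h8 : (n : ℝ) ≤ M / 2 ^ k := by
      rw [le_div_iff₀ (by positivity)]
      linarith
    have h9 : ((2 ^ n : ℕ) : ℝ) = Real.exp (n * Real.log 2) := by
      push_cast
      rw [Real.exp_nat_mul, Real.exp_log (by norm_num)]
    rw [h9, ← Real.exp_add]
    apply Real.exp_le_exp.mpr
    have h10 := Real.log_two_lt_d9
    have h11 : (n : ℝ) * Real.log 2 ≤ n * 0.7 :=
      mul_le_mul_of_nonneg_left (by linarith) (Nat.cast_nonneg n)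
    linarith

/-- the size of a ball of radius `ε n / (64 log (16 / ε))` -/
theorem bt_ball (ε : ℝ) (hε : 0 < ε) (hε1 : ε ≤ 1) {n : ℕ} (σ : Asg n) :
    (#{τ : Asg n | (hammingDist σ τ : ℝ) ≤ ε / (64 * Real.log (16 / ε)) * n} : ℝ) ≤
      Real.exp (ε * n / 4) := by
  obtain ⟨hδ0, hδ4, hδB⟩ := delta_facts ε hε hε1
  have hu := Numeric_u_lb hε hε1
  set u := Real.log (16 / ε) with hudef
  have hu0 : 0 < u := by linarith
  have h := ball_bound σ (2 * (ε / (16 * u) * n)) (2 * (ε / (16 * u))) (by positivity)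
    (by positivity) (by linarith)
  refine le_trans ?_ (h.trans (Real.exp_le_exp.mpr (hδB n)))
  have hsub : (univ.filter fun τ : Asg n => (hammingDist σ τ : ℝ) ≤ ε / (64 * u) * n) ⊆
      univ.filter fun τ : Asg n => (hammingDist σ τ : ℝ) ≤ 2 * (ε / (16 * u) * n) := by
    intro τ
    simp only [mem_filter, mem_univ, true_and]
    intro hτ
    refine hτ.trans ?_
    have h1 : ε / (64 * u) * n = (ε / (16 * u) * n) / 4 := by
      field_simp
      ring
    have h2 : 0 ≤ ε / (16 * u) * n := by positivity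
    rw [h1]
    linarith
  exact_mod_cast card_le_card hsub

open Classical in
theorem bt_main (ε q : ℝ) (hε : 0 < ε) (hε1 : ε ≤ 1) (hq : 0 < q) (k : ℕ)
    (hk : 10 ^ 8 * Real.log (16 / ε) ^ 2 ≤ ε ^ 2 * k) :
    ∃ n₀ : ℕ, ∀ n ≥ n₀, ∀ M : ℕ,
      (#{F : Formula n k M | ∃ rule σ m, FindsAt F (budget ε n) rule σ m ∧
        ε / (64 * Real.log (16 / ε)) * n < (m : ℝ)} : ℝ) ≤
          Real.exp (-(3 / 10 * n)) * Fintype.card (Formula n k M) ∧
      (ε * 2 ^ k * n ≤ M →
        (∀ sel : Formula n k M → (PA n → Bool) → PA n → Fin n, (∀ F, Causal (sel F)) →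
          (#{y : Formula n k M × (PA n → Bool) |
            Finds y.1 (budget ε n) (fun ρ => (sel y.1 y.2 ρ, y.2 ρ))} : ℝ) ≤
              Real.exp (-(ε * n / 4)) * Fintype.card (Formula n k M × (PA n → Bool))) ∧
        ∀ (R : Type) [Fintype R] [Nonempty R] (A : R → Formula n k M → Asg n),
          q ≤ (#{x : R × Formula n k M | ∃ sel : PA n → Fin n,
            Finds x.2 (budget ε n) (fun ρ => (sel ρ, A x.1 x.2 (sel ρ)))} : ℝ) /
              Fintype.card (R × Formula n k M) →
            ε ^ 4 * q ^ 3 * n ^ 2 / 10 ^ 7 ≤ sensitivity A) := by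
  obtain ⟨n₀, hn₀⟩ := bt_few ε hε hε1 k hk
  obtain ⟨n₁, hn₁⟩ := near_sens ε (q / 2) hε hε1 (by positivity)
  have hu := Numeric_u_lb hε hε1
  obtain ⟨n₂, hn₂⟩ := exists_nat_gt (14 + 2 / ε + 8 / q)
  refine ⟨max n₀ (max n₁ n₂), fun n hn M => ?_⟩
  have hn0 : n₀ ≤ n := le_trans (le_max_left _ _) hn
  have hn1 : n₁ ≤ n := le_trans (le_trans (le_max_left _ _) (le_max_right _ _)) hn
  have hn2 : n₂ ≤ n := le_trans (le_trans (le_max_right _ _) (le_max_right _ _)) hn
  obtain ⟨hkn, hfew⟩ := hn₀ n hn0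
  have hnR : 14 + 2 / ε + 8 / q < (n : ℝ) := hn₂.trans_le (by exact_mod_cast hn2)
  have hp1 : 0 < 2 / ε := by positivity
  have hp2 : 0 < 8 / q := by positivity
  have hn14 : (14 : ℝ) < n := by linarith
  have hnε : 2 ≤ ε * n := by
    have : 2 / ε ≤ (n : ℝ) := by linarith
    rw [div_le_iff₀ hε] at this
    linarith
  have hnq : 8 ≤ q * n := by
    have : 8 / q ≤ (n : ℝ) := by linarith
    rw [div_le_iff₀ hq] at this
    linarith
  refine ⟨hfew M, fun hM => ⟨fun sel hsel => ?_, fun R _ _ A hA => ?_⟩⟩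
  · -- random first values
    set S0 : Finset (Formula n k M) := univ.filter fun F : Formula n k M => ∃ rule σ m,
      FindsAt F (budget ε n) rule σ m ∧ ε / (64 * Real.log (16 / ε)) * n < (m : ℝ) with hS0
    have hsub : (univ.filter fun y : Formula n k M × (PA n → Bool) =>
        Finds y.1 (budget ε n) (fun ρ => (sel y.1 y.2 ρ, y.2 ρ))) ⊆
        (S0 ×ˢ (univ : Finset (PA n → Bool))) ∪
        univ.filter fun y : Formula n k M × (PA n → Bool) => ∃ σ m,
          FindsAt y.1 (budget ε n) (fun ρ => (sel y.1 y.2 ρ, y.2 ρ)) σ m ∧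
            (m : ℝ) ≤ ε / (64 * Real.log (16 / ε)) * n := by
      intro y hy
      simp only [mem_filter, mem_univ, true_and, mem_union, mem_product, and_true] at hy ⊢
      obtain ⟨σ, m, hf⟩ := hy
      rcases le_or_gt (m : ℝ) (ε / (64 * Real.log (16 / ε)) * n) with h | h
      · exact Or.inr ⟨σ, m, hf, h⟩
      · refine Or.inl ?_
        rw [hS0, mem_filter]
        exact ⟨mem_univ _, _, σ, m, hf, h⟩
    have hd := causal_few (budget ε n) (ε / (64 * Real.log (16 / ε)) * n) (Real.exp (ε * n / 4))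
      sel hsel (fun σ => bt_ball ε hε hε1 σ)
    have hc : ((univ.filter fun y : Formula n k M × (PA n → Bool) =>
        Finds y.1 (budget ε n) (fun ρ => (sel y.1 y.2 ρ, y.2 ρ))).card : ℝ) ≤
        ((S0 ×ˢ (univ : Finset (PA n → Bool))).card : ℝ) +
        ((univ.filter fun y : Formula n k M × (PA n → Bool) => ∃ σ m,
          FindsAt y.1 (budget ε n) (fun ρ => (sel y.1 y.2 ρ, y.2 ρ)) σ m ∧
            (m : ℝ) ≤ ε / (64 * Real.log (16 / ε)) * n).card : ℝ) := by
      have := (card_le_card hsub).trans (card_union_le _ _)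
      exact_mod_cast this
    refine hc.trans ?_
    refine (add_le_add_right hd _).trans ?_
    rw [card_product, card_univ]
    have hf := hfew M
    rw [← hS0] at hf
    rw [Fintype.card_prod]
    push_cast
    have hcc : (0 : ℝ) ≤ Fintype.card (PA n → Bool) := Nat.cast_nonneg _
    have hcF : (0 : ℝ) ≤ Fintype.card (Formula n k M) := Nat.cast_nonneg _
    have h1 : (S0.card : ℝ) * Fintype.card (PA n → Bool) ≤
        Real.exp (-(3 / 10 * n)) * (Fintype.card (Formula n k M) * Fintype.card (PA n → Bool)) := by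
      rw [← mul_assoc]
      exact mul_le_mul_of_nonneg_right hf hcc
    have hE : ε * n ≤ M / 2 ^ k := by
      rw [le_div_iff₀ (by positivity)]
      linarith
    have h2 : Real.exp (ε * n / 4) * Real.exp (-((M : ℝ) / 2 ^ k)) ≤
        Real.exp (-(3 * (ε * n) / 4)) := by
      rw [← Real.exp_add]
      apply Real.exp_le_exp.mpr
      linarith
    have h3 : Real.exp (-(3 / 10 * n)) + Real.exp (-(3 * (ε * n) / 4)) ≤
        Real.exp (-(ε * n / 4)) := by
      have hl2 := Real.log_two_lt_d9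
      have e1 : Real.exp (-(3 / 10 * n)) ≤ 1 / 2 * Real.exp (-(ε * n / 4)) := by
        have : (1 / 2 : ℝ) = Real.exp (-Real.log 2) := by
          rw [Real.exp_neg, Real.exp_log (by norm_num)]; norm_num
        rw [this, ← Real.exp_add]
        apply Real.exp_le_exp.mpr
        have : ε * n ≤ n := by nlinarith
        linarith
      have e2 : Real.exp (-(3 * (ε * n) / 4)) ≤ 1 / 2 * Real.exp (-(ε * n / 4)) := by
        have : (1 / 2 : ℝ) = Real.exp (-Real.log 2) := by
          rw [Real.exp_neg, Real.exp_log (by norm_num)]; norm_num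
        rw [this, ← Real.exp_add]
        apply Real.exp_le_exp.mpr
        linarith
      linarith
    have hcp : (0 : ℝ) ≤ Fintype.card (Formula n k M) * Fintype.card (PA n → Bool) := by positivity
    calc (S0.card : ℝ) * Fintype.card (PA n → Bool) +
          Real.exp (ε * n / 4) * Real.exp (-((M : ℝ) / 2 ^ k)) *
            (Fintype.card (Formula n k M) * Fintype.card (PA n → Bool))
        ≤ Real.exp (-(3 / 10 * n)) *
            (Fintype.card (Formula n k M) * Fintype.card (PA n → Bool)) +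
          Real.exp (-(3 * (ε * n) / 4)) *
            (Fintype.card (Formula n k M) * Fintype.card (PA n → Bool)) :=
          add_le_add h1 (mul_le_mul_of_nonneg_right h2 hcp)
      _ = (Real.exp (-(3 / 10 * n)) + Real.exp (-(3 * (ε * n) / 4))) *
            (Fintype.card (Formula n k M) * Fintype.card (PA n → Bool)) := by ring
      _ ≤ _ := mul_le_mul_of_nonneg_right h3 hcp
  · -- stable first values
    have hX0 : (0 : ℝ) < Fintype.card (R × Formula n k M) := by
      have : Nonempty (Fin k ↪ Fin n) := ⟨Fin.castLEEmb hkn.le⟩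
      have : Nonempty (Formula n k M) := inferInstance
      exact_mod_cast Fintype.card_pos
    set S0 : Finset (Formula n k M) := univ.filter fun F : Formula n k M => ∃ rule σ m,
      FindsAt F (budget ε n) rule σ m ∧ ε / (64 * Real.log (16 / ε)) * n < (m : ℝ) with hS0
    have hsub : (univ.filter fun x : R × Formula n k M => ∃ sel : PA n → Fin n,
            Finds x.2 (budget ε n) (fun ρ => (sel ρ, A x.1 x.2 (sel ρ)))) ⊆
        (univ.filter fun x : R × Formula n k M => ∃ σ : Asg n, (∀ j, ¬ Violated σ (x.2 j)) ∧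
          (hammingDist (A x.1 x.2) σ : ℝ) ≤ ε / (64 * Real.log (16 / ε)) * n) ∪
        ((univ : Finset R) ×ˢ S0) := by
      intro x hx
      simp only [mem_filter, mem_univ, true_and, mem_union, mem_product] at hx ⊢
      obtain ⟨sel, σ, m, hf⟩ := hx
      rcases le_or_gt (m : ℝ) (ε / (64 * Real.log (16 / ε)) * n) with h | h
      · refine Or.inl ⟨σ, hf.2, ?_⟩
        rw [← findsAt_fixed _ sel _ hf]
        exact h
      · refine Or.inr ?_
        rw [hS0, mem_filter]
        exact ⟨mem_univ _, _, σ, m, hf, h⟩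
    have hc : ((univ.filter fun x : R × Formula n k M => ∃ sel : PA n → Fin n,
            Finds x.2 (budget ε n) (fun ρ => (sel ρ, A x.1 x.2 (sel ρ)))).card : ℝ) ≤
        ((univ.filter fun x : R × Formula n k M => ∃ σ : Asg n, (∀ j, ¬ Violated σ (x.2 j)) ∧
          (hammingDist (A x.1 x.2) σ : ℝ) ≤ ε / (64 * Real.log (16 / ε)) * n).card : ℝ) +
        (((univ : Finset R) ×ˢ S0).card : ℝ) := by
      have := (card_le_card hsub).trans (card_union_le _ _)
      exact_mod_cast this
    have hf := hfew M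
    rw [← hS0] at hf
    have hE0 : Real.exp (-(3 / 10 * n)) ≤ q / 2 := by
      have e1 : (3 / 10 * n : ℝ) + 1 ≤ Real.exp (3 / 10 * n) := Real.add_one_le_exp _
      have e2 : 2 / q ≤ Real.exp (3 / 10 * n) := by
        refine le_trans ?_ e1
        rw [div_le_iff₀ hq]
        nlinarith
      rw [Real.exp_neg]
      have e3 : (Real.exp (3 / 10 * n))⁻¹ ≤ (2 / q)⁻¹ :=
        inv_anti₀ (by positivity) e2
      rw [inv_div] at e3
      exact e3
    have hc2 : (((univ : Finset R) ×ˢ S0).card : ℝ) ≤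
        q / 2 * Fintype.card (R × Formula n k M) := by
      rw [card_product, card_univ, Fintype.card_prod]
      push_cast
      have hcR : (0 : ℝ) ≤ Fintype.card R := Nat.cast_nonneg _
      have hcF : (0 : ℝ) ≤ Fintype.card (Formula n k M) := Nat.cast_nonneg _
      calc (Fintype.card R : ℝ) * S0.card
          ≤ Fintype.card R * (Real.exp (-(3 / 10 * n)) * Fintype.card (Formula n k M)) :=
            mul_le_mul_of_nonneg_left hf hcR
        _ ≤ Fintype.card R * (q / 2 * Fintype.card (Formula n k M)) := by gcongr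
        _ = _ := by ring
    have hA' := hA.trans (div_le_div_of_nonneg_right hc hX0.le)
    rw [add_div] at hA'
    have hc3 : (((univ : Finset R) ×ˢ S0).card : ℝ) / Fintype.card (R × Formula n k M) ≤
        q / 2 := by
      rw [div_le_iff₀ hX0]
      exact hc2
    have hk16 : 16 * Real.log (16 / ε) ^ 2 ≤ ε * k := by
      have e1 : ε ^ 2 * k ≤ ε * k := by
        have : ε ^ 2 ≤ ε := by nlinarith
        exact mul_le_mul_of_nonneg_right this (Nat.cast_nonneg _)
      nlinarith [sq_nonneg (Real.log (16 / ε))]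
    have hns := hn₁ n hn1 k hkn.le hk16 M hM R A (by
      have := hA'.trans (add_le_add_right hc3 _)
      linarith)
    refine le_trans ?_ hns
    have h0 : 0 ≤ ε ^ 4 * q ^ 3 * n ^ 2 := by positivity
    have h1 : ε ^ 4 * (q / 2) ^ 3 * n ^ 2 / (2 * 10 ^ 5) =
        ε ^ 4 * q ^ 3 * n ^ 2 / (16 * 10 ^ 5) := by ring
    rw [h1]
    exact div_le_div_of_nonneg_left h0 (by norm_num) (by norm_num)

end Pool.Agent.KS
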