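import Pool.Agent.Lib.MP_f017c9_lc_BT.Kil
import Pool.Agent.Lib.MP_f017c9_lc_BT.Crt

/-!
# Random k-SAT: backtracking search, the number of corrections
-/

namespace Pool.Agent.KS

open Finset

variable {n k M : ℕ} {F : Formula n k M} {ρ : PA n} {r U : ℕ}

/-- safe nodes with many free variables have no short refutation -/
theorem not_refuted (hm : Med F U r) (hr : 1 ≤ r) (w a : ℕ) (hw : 1 ≤ w) (T : ℝ)
    (hT : T * (1 - w / (2 * n)) ^ a < 1) (hs : Safe F r ρ) (hK : U + w + a + r ≤ nf ρ) :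
    ¬ Refuted F T ρ := by
  rintro ⟨L, hL, hlen, E, hE, hf⟩
  have hwn : w ≤ n := by
    have h1 := nf_le ρ
    omega
  have hn0 : (0 : ℝ) < n := by
    have h2 : 0 < n := by omega
    exact_mod_cast h2
  have hc0 : 0 ≤ (1 - (w : ℝ) / (2 * n)) ^ a := by
    apply pow_nonneg
    rw [sub_nonneg, div_le_one (by positivity)]
    have h3 : (w : ℝ) ≤ n := by exact_mod_cast hwn
    linarith
  have hc : (L.toFinset.card : ℝ) * (1 - w / (2 * n)) ^ a < 1 := by
    refine lt_of_le_of_lt (mul_le_mul_of_nonneg_right ?_ hc0) hT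
    have h4 : (L.toFinset.card : ℝ) ≤ (L.length : ℝ) := by
      exact_mod_cast List.toFinset_card_le L
    exact le_trans h4 hlen
  obtain ⟨ρ', hp, hs', hn', hA⟩ := kill hm w a hw L.toFinset hs hK hc
  exact crit hm hr w L hL hs' hn' hA E hE (fun l hl => hp _ _ (hf l hl))

theorem path_bound (hm : Med F U r) (hr : 1 ≤ r) (w a : ℕ) (hw : 1 ≤ w) (T : ℝ)
    (hT : T * (1 - w / (2 * n)) ^ a < 1) (rule : PA n → Lit n) (σ : Asg n)
    (hsat : ∀ j, ¬ Violated σ (F j)) (m : ℕ) (h : Reach F T rule ρ m) (hσ : Ext ρ σ) :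
    (U + w + a + r ≤ nf ρ → Inv F r ρ m) ∧
      (nf ρ < U + w + a + r → m + nf ρ ≤ r + (U + w + a + r)) := by
  revert hσ
  induction h with
  | root =>
    intro _
    rw [nf_none]
    exact ⟨fun _ => inv_zero F r _, fun h => by omega⟩
  | first ρ m h hx ih =>
    intro hσ
    have hu : Function.update ρ (rule ρ).1 (some (rule ρ).2) =
      upd ρ (rule ρ).1 (rule ρ).2 := rfl
    rw [hu] at hσ ⊢
    have hpe := pext_upd hx (rule ρ).2
    obtain ⟨ih1, ih2⟩ := ih (ext_of_pext hpe hσ)
    have hnf := nf_upd hx (rule ρ).2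
    constructor
    · intro hK
      exact inv_mono hpe (ih1 (by omega))
    · intro hK
      by_cases h1 : nf ρ < U + w + a + r
      · have h2 := ih2 h1
        omega
      · have h2 := inv_le (ih1 (by omega))
        omega
  | second ρ m h hx hrf ih =>
    intro hσ
    have hu : Function.update ρ (rule ρ).1 (some (rule ρ).2) =
      upd ρ (rule ρ).1 (rule ρ).2 := rfl
    have hu' : Function.update ρ (rule ρ).1 (some (!(rule ρ).2)) =
      upd ρ (rule ρ).1 (!(rule ρ).2) := rfl
    rw [hu] at hrf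
    rw [hu'] at hσ ⊢
    have hpe := pext_upd hx (!(rule ρ).2)
    have hσ' : Ext ρ σ := ext_of_pext hpe hσ
    obtain ⟨ih1, ih2⟩ := ih hσ'
    have hnf := nf_upd hx (!(rule ρ).2)
    have hnf2 := nf_upd hx (rule ρ).2
    have hsafe : Safe F r ρ := safe_of_sat hσ' hsat r
    constructor
    · intro hK
      have hns : ¬ Safe F r (upd ρ (rule ρ).1 (rule ρ).2) := fun hs =>
        not_refuted hm hr w a hw T hT hs (by omega) hrf
      exact inv_forced hm hsafe hx (by omega) (ih1 (by omega)) (rule ρ).2 hns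
    · intro hK
      by_cases h1 : nf ρ < U + w + a + r
      · have h2 := ih2 h1
        omega
      · have h2 := inv_le (ih1 (by omega))
        omega

theorem finds_bound (hm : Med F U r) (hr : 1 ≤ r) (w a : ℕ) (hw : 1 ≤ w) (T : ℝ)
    (hT : T * (1 - w / (2 * n)) ^ a < 1) (rule : PA n → Lit n) (σ : Asg n) (m : ℕ)
    (h : FindsAt F T rule σ m) : m ≤ r + (U + w + a + r) := by
  have h1 := (path_bound hm hr w a hw T hT rule σ h.2 m h.1 (fun x b hb => by
    simpa using hb)).2
  rw [nf_total] at h1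
  have h2 := h1 (by omega)
  omega

end Pool.Agent.KS
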